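import Mathlib

/-! The record harmonic series `∑ I_k/(k+1)`, partial sums over index sets. -/

open MeasureTheory ProbabilityTheory Filter Topology
open scoped ENNReal

namespace H143RH

variable {Ω : Type*} [MeasurableSpace Ω]

/-- `I k` (`k = 0, 1, 2, ...`) stands for the record indicator `I_{k+1}`: independent random
variables with values in `{0,1}` and `P(I_{k+1} = 1) = 1/(k+1)`. -/
structure Records (P : Measure Ω) (I : ℕ → Ω → ℝ) : Prop where
  meas : ∀ k, Measurable (I k)
  indep : iIndepFun I P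
  zero_one : ∀ k ω, I k ω = 0 ∨ I k ω = 1
  prob : ∀ k : ℕ, P.real {ω | I k ω = 1} = 1 / ((k : ℝ) + 1)

variable (I : ℕ → Ω → ℝ)

/-- the term -/
noncomputable def term (k : ℕ) (ω : Ω) : ℝ≥0∞ := ENNReal.ofReal (I k ω / ((k : ℝ) + 1))

/-- extended partial sum over the index set `A` -/
noncomputable def TE (A : Set ℕ) (ω : Ω) : ℝ≥0∞ := ∑' k, A.indicator (fun k => term I k ω) k

/-- partial sum over the index set `A` -/
noncomputable def T (A : Set ℕ) (ω : Ω) : ℝ := (TE I A ω).toReal

theorem T_nonneg (A : Set ℕ) (ω : Ω) : 0 ≤ T I A ω := ENNReal.toReal_nonneg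

theorem TE_mono {A B : Set ℕ} (h : A ⊆ B) (ω : Ω) : TE I A ω ≤ TE I B ω := by
  unfold TE
  refine ENNReal.tsum_le_tsum fun k => ?_
  exact Set.indicator_le_indicator_of_subset h (fun _ => zero_le) k

theorem TE_insert {A : Set ℕ} {k : ℕ} (hk : k ∉ A) (ω : Ω) :
    TE I (insert k A) ω = TE I A ω + term I k ω := by
  unfold TE
  have h1 : ∀ j, (insert k A).indicator (fun k => term I k ω) j
      = A.indicator (fun k => term I k ω) j + (if j = k then term I k ω else 0) := by
    intro j
    by_cases hj : j = k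
    · subst hj
      simp [hk]
    · by_cases hA : j ∈ A
      · simp [hA, hj]
      · simp [hA, hj]
  rw [tsum_congr h1, ENNReal.tsum_add, tsum_ite_eq]

theorem term_lt_top (k : ℕ) (ω : Ω) : term I k ω < ∞ := ENNReal.ofReal_lt_top

theorem T_insert {A : Set ℕ} {k : ℕ} (hk : k ∉ A) {ω : Ω} (hI : 0 ≤ I k ω)
    (hω : TE I Set.univ ω < ∞) : T I (insert k A) ω = T I A ω + I k ω / ((k:ℝ) + 1) := by
  unfold T
  rw [TE_insert I hk, ENNReal.toReal_add (lt_of_le_of_lt (TE_mono I (Set.subset_univ A) ω) hω).ne
    (term_lt_top I k ω).ne]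
  unfold term
  rw [ENNReal.toReal_ofReal (by positivity)]

variable {I} {P : Measure Ω}

theorem Records.nonneg (h : Records P I) (k : ℕ) (ω : Ω) : 0 ≤ I k ω := by
  rcases h.zero_one k ω with h | h <;> rw [h] <;> norm_num

theorem measurable_term (h : Records P I) (k : ℕ) : Measurable (term I k) := by
  unfold term
  exact ((h.meas k).div_const _).ennreal_ofReal

theorem measurable_TE (h : Records P I) (A : Set ℕ) : Measurable (TE I A) := by
  unfold TE
  refine Measurable.tsum fun k => ?_
  by_cases hk : k ∈ A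
  · simp only [Set.indicator_of_mem hk]; exact measurable_term h k
  · simp only [Set.indicator_of_notMem hk]; exact measurable_const

theorem measurable_T (h : Records P I) (A : Set ℕ) : Measurable (T I A) :=
  (measurable_TE h A).ennreal_toReal

theorem measurableSet_one (h : Records P I) (k : ℕ) : MeasurableSet {ω | I k ω = 1} :=
  h.meas k (measurableSet_singleton 1)

variable [IsProbabilityMeasure P]

theorem measure_one (h : Records P I) (k : ℕ) :
    P {ω | I k ω = 1} = ENNReal.ofReal (1 / ((k:ℝ) + 1)) := by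
  rw [← h.prob k, ofReal_measureReal]

theorem term_eq (h : Records P I) (k : ℕ) (ω : Ω) :
    term I k ω = {ω | I k ω = 1}.indicator (fun _ => ENNReal.ofReal (1 / ((k:ℝ) + 1))) ω := by
  unfold term
  rcases h.zero_one k ω with h0 | h1
  · rw [Set.indicator_of_notMem (by rw [Set.mem_ofPred_eq, h0]; norm_num), h0]; simp
  · rw [Set.indicator_of_mem (by rw [Set.mem_ofPred_eq, h1]), h1]

theorem lintegral_term (h : Records P I) (k : ℕ) (s : Set Ω) (hs : MeasurableSet s) :
    ∫⁻ ω in s, term I k ω ∂P =
      ENNReal.ofReal (1 / ((k:ℝ) + 1)) * P ({ω | I k ω = 1} ∩ s) := by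
  have : ∀ ω, term I k ω = {ω | I k ω = 1}.indicator (fun _ => ENNReal.ofReal (1 / ((k:ℝ) + 1))) ω :=
    term_eq h k
  simp_rw [this]
  rw [lintegral_indicator (measurableSet_one h k), lintegral_const,
    Measure.restrict_restrict (measurableSet_one h k), Measure.restrict_apply_univ]

/-- telescoping bound -/
theorem sum_tele (m : ℕ) (hm : 1 ≤ m) (N : ℕ) :
    ∑ k ∈ Finset.range N, (if m ≤ k then 1 / ((k:ℝ) * ((k:ℝ)+1)) else 0) ≤ 1 / (m:ℝ) := by
  have key : ∀ N : ℕ, ∑ k ∈ Finset.range N, (if m ≤ k then 1 / ((k:ℝ) * ((k:ℝ)+1)) else 0)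
      = if m ≤ N then 1 / (m:ℝ) - 1 / (N:ℝ) else 0 := by
    intro N
    induction N with
    | zero => simp; omega
    | succ N ih =>
      rw [Finset.sum_range_succ, ih]
      by_cases h1 : m ≤ N
      · have h2 : m ≤ N + 1 := by omega
        simp only [h1, h2, if_true]
        have hN : (0:ℝ) < N := by exact_mod_cast (by omega : 0 < N)
        have hm' : (0:ℝ) < m := by exact_mod_cast (by omega : 0 < m)
        push_cast
        field_simp
        ring
      · by_cases h2 : m ≤ N + 1
        · have : m = N + 1 := by omega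
          subst this
          simp
        · simp [h1, h2]
  rw [key N]
  have hm' : (0:ℝ) < m := by exact_mod_cast (by omega : 0 < m)
  split_ifs with h1
  · have hN : (0:ℝ) < N := by exact_mod_cast (by omega : 0 < N)
    have : 0 < 1 / (N:ℝ) := by positivity
    linarith
  · positivity

theorem lintegral_TE_Ici (h : Records P I) (m : ℕ) (hm : 1 ≤ m) :
    ∫⁻ ω, TE I (Set.Ici m) ω ∂P ≤ ENNReal.ofReal (1 / (m:ℝ)) := by
  unfold TE
  rw [lintegral_tsum]
  · refine ENNReal.tsum_le_of_sum_range_le fun N => ?_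
    have hb : ∀ k, ∫⁻ ω, (Set.Ici m).indicator (fun k => term I k ω) k ∂P
        ≤ ENNReal.ofReal (if m ≤ k then 1 / ((k:ℝ) * ((k:ℝ)+1)) else 0) := by
      intro k
      by_cases hk : m ≤ k
      · simp only [Set.indicator_of_mem (Set.mem_Ici.2 hk), hk, if_true]
        have e := lintegral_term h k Set.univ MeasurableSet.univ
        rw [Measure.restrict_univ, Set.inter_univ, measure_one h k,
          ← ENNReal.ofReal_mul (by positivity)] at e
        rw [e]
        apply ENNReal.ofReal_le_ofReal
        have hk0 : (0:ℝ) < k := by exact_mod_cast (by omega : 0 < k)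
        rw [div_mul_div_comm, one_mul]
        apply one_div_le_one_div_of_le (by positivity)
        nlinarith
      · simp [Set.indicator_of_notMem (by rw [Set.mem_Ici]; exact hk : k ∉ Set.Ici m)]
    calc _ ≤ ∑ k ∈ Finset.range N, ENNReal.ofReal (if m ≤ k then 1 / ((k:ℝ) * ((k:ℝ)+1)) else 0) :=
          Finset.sum_le_sum fun k _ => hb k
      _ = ENNReal.ofReal (∑ k ∈ Finset.range N, (if m ≤ k then 1 / ((k:ℝ) * ((k:ℝ)+1)) else 0)) := by
          rw [ENNReal.ofReal_sum_of_nonneg]
          intro k _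
          split_ifs <;> positivity
      _ ≤ _ := ENNReal.ofReal_le_ofReal (sum_tele m hm N)
  · intro k
    by_cases hk : k ∈ Set.Ici m
    · simp only [Set.indicator_of_mem hk]; exact (measurable_term h k).aemeasurable
    · simp only [Set.indicator_of_notMem hk]; exact aemeasurable_const

theorem ae_lt_top_univ (h : Records P I) : ∀ᵐ ω ∂P, TE I Set.univ ω < ∞ := by
  have h1 : ∀ᵐ ω ∂P, TE I (Set.Ici 1) ω < ∞ := by
    refine ae_lt_top (measurable_TE h _) ?_
    exact (lt_of_le_of_lt (lintegral_TE_Ici h 1 le_rfl) ENNReal.ofReal_lt_top).ne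
  filter_upwards [h1] with ω hω
  have e : (Set.univ : Set ℕ) = insert 0 (Set.Ici 1) := by
    ext k; simp; omega
  rw [e, TE_insert I (by simp)]
  exact ENNReal.add_lt_top.2 ⟨hω, term_lt_top I 0 ω⟩

end H143RH
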