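import Pool.Agent.H143RH.Final

/-! The law of the record harmonic series has a bounded density. -/

open MeasureTheory ProbabilityTheory Filter Topology
open scoped ENNReal

namespace H143RH

variable {Ω : Type*} [mΩ : MeasurableSpace Ω] {P : Measure Ω} [IsProbabilityMeasure P]
  {I : ℕ → Ω → ℝ}

theorem N_le_one (A : Set ℕ) (u v : ℝ) : N P I A u v ≤ 1 := measureReal_le_one

theorem N_mono (A : Set ℕ) {u v u' v' : ℝ} (hu : u' ≤ u) (hv : v ≤ v') :
    N P I A u v ≤ N P I A u' v' := by
  unfold N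
  refine measureReal_mono fun ω hω => ?_
  exact ⟨hu.trans hω.1, lt_of_lt_of_le hω.2 hv⟩

/-- the general size-bias inequality -/
theorem size_bias_gen (h : Records P I) (m : ℕ) (hm : 1 ≤ m) (u v : ℝ) (hu : 0 ≤ u)
    (c : ℕ → ℝ) (hc : ∀ k, 0 ≤ c k) (B : ℝ) (hB0 : 0 ≤ B)
    (hB : ∀ M : ℕ, ∑ k ∈ Finset.range M,
      (if m ≤ k then 1 / ((k:ℝ) * ((k:ℝ)+1)) * c k else 0) ≤ B)
    (hN : ∀ k, m ≤ k → N P I (Set.Ici m) (u - 1 / ((k:ℝ) + 1)) (v - 1 / ((k:ℝ) + 1)) ≤ c k) :
    u * N P I (Set.Ici m) u v ≤ B := by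
  set s : Set Ω := {ω | T I (Set.Ici m) ω ∈ Set.Ico u v} with hs
  have hsm : MeasurableSet s := measurableSet_Ico_T h _ u v
  have h1 : ENNReal.ofReal u * P s ≤ ∫⁻ ω in s, TE I (Set.Ici m) ω ∂P := by
    rw [← setLIntegral_const]
    refine setLIntegral_mono_ae' hsm ?_
    filter_upwards [ae_lt_top_univ h] with ω hω hωs
    have hlt : TE I (Set.Ici m) ω < ∞ := lt_of_le_of_lt (TE_mono I (Set.subset_univ _) ω) hω
    have : u ≤ (TE I (Set.Ici m) ω).toReal := hωs.1
    exact (ENNReal.ofReal_le_iff_le_toReal hlt.ne).2 this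
  have h2 : ∫⁻ ω in s, TE I (Set.Ici m) ω ∂P ≤ ENNReal.ofReal B := by
    unfold TE
    rw [lintegral_tsum]
    · refine ENNReal.tsum_le_of_sum_range_le fun M => ?_
      have hb : ∀ k, ∫⁻ ω in s, (Set.Ici m).indicator (fun k => term I k ω) k ∂P
          ≤ ENNReal.ofReal (if m ≤ k then 1 / ((k:ℝ) * ((k:ℝ)+1)) * c k else 0) := by
        intro k
        by_cases hk : m ≤ k
        · simp only [Set.indicator_of_mem (Set.mem_Ici.2 hk), hk, if_true]
          rw [lintegral_term h k s hsm]
          have hr := inter_one_le h (A := Set.Ici m) (Set.mem_Ici.2 hk) (hm.trans hk) u v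
          have hr2 := hN k hk
          have hk0 : (0:ℝ) < k := by exact_mod_cast (by omega : 0 < k)
          rw [← ofReal_measureReal, ← ENNReal.ofReal_mul (by positivity)]
          apply ENNReal.ofReal_le_ofReal
          calc 1 / ((k:ℝ) + 1) * P.real ({ω | I k ω = 1} ∩ s)
              ≤ 1 / ((k:ℝ) + 1) * (1 / (k:ℝ) * c k) := by
                apply mul_le_mul_of_nonneg_left _ (by positivity)
                exact hr.trans (mul_le_mul_of_nonneg_left hr2 (by positivity))
            _ = 1 / ((k:ℝ) * ((k:ℝ)+1)) * c k := by field_simp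
        · simp [Set.indicator_of_notMem (by rw [Set.mem_Ici]; exact hk : k ∉ Set.Ici m)]
      calc _ ≤ ∑ k ∈ Finset.range M,
            ENNReal.ofReal (if m ≤ k then 1 / ((k:ℝ) * ((k:ℝ)+1)) * c k else 0) :=
            Finset.sum_le_sum fun k _ => hb k
        _ = ENNReal.ofReal (∑ k ∈ Finset.range M,
            (if m ≤ k then 1 / ((k:ℝ) * ((k:ℝ)+1)) * c k else 0)) := by
            rw [ENNReal.ofReal_sum_of_nonneg]
            intro k _
            have := hc k
            split_ifs <;> positivity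
        _ ≤ _ := ENNReal.ofReal_le_ofReal (hB M)
    · intro k
      by_cases hk : k ∈ Set.Ici m
      · simp only [Set.indicator_of_mem hk]; exact (measurable_term h k).aemeasurable
      · simp only [Set.indicator_of_notMem hk]; exact aemeasurable_const
  have h3 := h1.trans h2
  rw [← ofReal_measureReal (μ := P) (s := s), ← ENNReal.ofReal_mul hu] at h3
  exact (ENNReal.ofReal_le_ofReal_iff hB0).1 h3

/-! ### The Lyapunov function -/

noncomputable def psi (ε z : ℝ) : ℝ := if z < ε then 1 else 2 - √ε / √z + 40 * z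

noncomputable def Psi (ε z : ℝ) : ℝ :=
  if z < ε then z else 2 * z + ε - 2 * (√ε * √z) + 20 * (z ^ 2 - ε ^ 2)

theorem psi_ge_one {ε z : ℝ} (hε : 0 < ε) : 1 ≤ psi ε z := by
  unfold psi
  split_ifs with h
  · exact le_rfl
  · have hz : ε ≤ z := not_lt.1 h
    have hz0 : 0 < z := lt_of_lt_of_le hε hz
    have : √ε / √z ≤ 1 := by
      rw [div_le_one (Real.sqrt_pos.2 hz0)]
      exact Real.sqrt_le_sqrt hz
    linarith

theorem tangent {ε a b : ℝ} (hε : 0 < ε) (hab : a ≤ b) :
    psi ε a * (b - a) ≤ Psi ε b - Psi ε a := by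
  unfold psi Psi
  by_cases hb : b < ε
  · have ha : a < ε := lt_of_le_of_lt hab hb
    simp only [ha, hb, if_true]
    linarith
  · have hb' : ε ≤ b := not_lt.1 hb
    have hb0 : 0 < b := lt_of_lt_of_le hε hb'
    have hsb : √b ^ 2 = b := Real.sq_sqrt hb0.le
    have hse : √ε ^ 2 = ε := Real.sq_sqrt hε.le
    have hsb0 : 0 < √b := Real.sqrt_pos.2 hb0
    have hse0 : 0 < √ε := Real.sqrt_pos.2 hε
    by_cases ha : a < ε
    · simp only [ha, hb, if_true, if_false]
      have h1 : 0 ≤ (√b - √ε) ^ 2 := sq_nonneg _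
      have h2 : (√b - √ε) ^ 2 = b + ε - 2 * (√ε * √b) := by
        have : (√b - √ε) ^ 2 = √b ^ 2 + √ε ^ 2 - 2 * (√ε * √b) := by ring
        rw [this, hsb, hse]
      have h3 : 0 ≤ b ^ 2 - ε ^ 2 := by nlinarith
      linarith
    · simp only [ha, hb, if_false]
      have ha' : ε ≤ a := not_lt.1 ha
      have ha0 : 0 < a := lt_of_lt_of_le hε ha'
      have hsa : √a ^ 2 = a := Real.sq_sqrt ha0.le
      have hsa0 : 0 < √a := Real.sqrt_pos.2 ha0
      have key : 2 * b + ε - 2 * (√ε * √b) + 20 * (b ^ 2 - ε ^ 2) -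
          (2 * a + ε - 2 * (√ε * √a) + 20 * (a ^ 2 - ε ^ 2)) - (2 - √ε / √a + 40 * a) * (b - a)
          = √ε * (√b - √a) ^ 2 / √a + 20 * (b - a) ^ 2 := by
        have e1 : √ε / √a * (b - a) = √ε * (√b - √a) * (√b + √a) / √a := by
          rw [← hsa, ← hsb, Real.sqrt_sq hsa0.le, Real.sqrt_sq hsb0.le]
          field_simp
          ring
        have e2 : √ε * (√b - √a) ^ 2 / √a = √ε * (√b - √a) * (√b + √a) / √a
            - 2 * (√ε * √b) + 2 * (√ε * √a) := by
          field_simp
          ring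
        rw [e2]
        have e3 : (2 - √ε / √a + 40 * a) * (b - a) = 2 * (b - a) - √ε / √a * (b - a)
          + 40 * a * (b - a) := by ring
        rw [e3, e1]
        ring
      have : 0 ≤ √ε * (√b - √a) ^ 2 / √a + 20 * (b - a) ^ 2 := by positivity
      linarith

theorem Psi_mono {ε a b : ℝ} (hε : 0 < ε) (hab : a ≤ b) : Psi ε a ≤ Psi ε b := by
  have h1 := tangent hε hab
  have h2 := psi_ge_one (ε := ε) (z := a) hε
  have h3 : 0 ≤ psi ε a * (b - a) := mul_nonneg (by linarith) (by linarith)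
  linarith

theorem lyap {ε x : ℝ} (hε : 0 < ε) (hx : 16 * ε ≤ x) (hx1 : x ≤ 1 / 10) :
    (1 + 5 * x) * (Psi ε x + ε) ≤ x * psi ε x - 2 * ε := by
  have hnot : ¬ x < ε := by linarith
  unfold psi Psi
  simp only [hnot, if_false]
  have hx0 : 0 < x := by linarith
  set s := √x with hs
  set e := √ε with he
  have hs0 : 0 < s := Real.sqrt_pos.2 hx0
  have he0 : 0 < e := Real.sqrt_pos.2 hε
  have hsx : s ^ 2 = x := Real.sq_sqrt hx0.le
  have hee : e ^ 2 = ε := Real.sq_sqrt hε.le
  have hse : 4 * e ≤ s := by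
    have : (4 * e) ^ 2 ≤ s ^ 2 := by
      rw [hsx, mul_pow, hee]; linarith
    exact (pow_le_pow_iff_left₀ (by positivity) hs0.le (by norm_num)).1 this
  have e1 : x * (2 - e / s + 40 * x) = 2 * x - e * s + 40 * x ^ 2 := by
    rw [← hsx]; field_simp
  rw [e1]
  have h1 : 0 ≤ e * s - 4 * ε := by
    rw [← hee]; nlinarith
  have h2 : 0 ≤ e * s - ε := by
    rw [← hee]; nlinarith
  have h3 : x ^ 3 ≤ x ^ 2 / 10 := by nlinarith [sq_nonneg x]
  have h4 : 0 ≤ x * (e * s - ε) := mul_nonneg hx0.le h2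
  have h5 : 0 ≤ ε ^ 2 * (1 + 5 * x) := by positivity
  nlinarith

/-- the Riemann-sum bound -/
theorem riemann {ε x : ℝ} (hε : 0 < ε) (hx : 16 * ε ≤ x) (hx1 : x ≤ 1 / 10) (M : ℕ) :
    ∑ k ∈ Finset.range M, (if 1 ≤ k then 1 / ((k:ℝ) * ((k:ℝ)+1)) *
      (if x + ε ≤ 1 / ((k:ℝ) + 1) then 0 else psi ε (x - 1 / ((k:ℝ) + 1))) else 0)
      ≤ (1 + 5 * x) * (Psi ε (max (x - 1 / ((M:ℝ) + 1)) (-ε)) + ε) := by
  have hPe : Psi ε (-ε) = -ε := by
    unfold Psi
    rw [if_pos (by linarith)]
  have hx0 : 0 < x := by linarith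
  have hnonneg : ∀ z, 0 ≤ (1 + 5 * x) * (Psi ε (max z (-ε)) + ε) := by
    intro z
    have := Psi_mono hε (le_max_right z (-ε))
    rw [hPe] at this
    apply mul_nonneg (by linarith) (by linarith)
  induction M with
  | zero => simpa using hnonneg _
  | succ M ih =>
    rw [Finset.sum_range_succ]
    have hmono : Psi ε (max (x - 1 / ((M:ℝ) + 1)) (-ε)) ≤
        Psi ε (max (x - 1 / (((M + 1 : ℕ) : ℝ) + 1)) (-ε)) := by
      apply Psi_mono hε
      apply max_le_max_right
      have : 1 / (((M + 1 : ℕ) : ℝ) + 1) ≤ 1 / ((M:ℝ) + 1) := by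
        apply one_div_le_one_div_of_le (by positivity)
        push_cast; linarith
      linarith
    by_cases hM : 1 ≤ M
    · by_cases hxM : x + ε ≤ 1 / ((M:ℝ) + 1)
      · simp only [hM, hxM, if_true, mul_zero, add_zero]
        refine ih.trans (mul_le_mul_of_nonneg_left (by linarith) (by linarith))
      · simp only [hM, hxM, if_true, if_false]
        have hxM' : 1 / ((M:ℝ) + 1) < x + ε := not_le.1 hxM
        have hM0 : (0:ℝ) < M := by exact_mod_cast (by omega : 0 < M)
        have e1 : max (x - 1 / ((M:ℝ) + 1)) (-ε) = x - 1 / ((M:ℝ) + 1) := max_eq_left (by linarith)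
        rw [e1] at ih
        have hlt : 1 / (((M + 1 : ℕ) : ℝ) + 1) ≤ 1 / ((M:ℝ) + 1) := by
          apply one_div_le_one_div_of_le (by positivity)
          push_cast; linarith
        have e2 : max (x - 1 / (((M + 1 : ℕ) : ℝ) + 1)) (-ε) = x - 1 / (((M + 1 : ℕ) : ℝ) + 1) :=
          max_eq_left (by linarith)
        rw [e2]
        have ht := tangent hε (a := x - 1 / ((M:ℝ) + 1)) (b := x - 1 / (((M + 1 : ℕ) : ℝ) + 1))
          (by linarith)
        have e3 : x - 1 / (((M + 1 : ℕ) : ℝ) + 1) - (x - 1 / ((M:ℝ) + 1))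
            = 1 / (((M:ℝ) + 1) * ((M:ℝ) + 2)) := by
          push_cast; field_simp; ring
        rw [e3] at ht
        -- `2 / M ≤ 5 x`
        have h2M : 1 + 2 / (M:ℝ) ≤ 1 + 5 * x := by
          have h5 : 1 < (x + ε) * ((M:ℝ) + 1) := by
            rwa [div_lt_iff₀ (by positivity)] at hxM'
          have h6 : (x + ε) ≤ 17 / 16 * x := by linarith
          have h7 : 1 < 17 / 16 * x * ((M:ℝ) + 1) :=
            lt_of_lt_of_le h5 (mul_le_mul_of_nonneg_right h6 (by positivity))
          have h8 : 2 / (M:ℝ) ≤ 5 * x := by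
            rw [div_le_iff₀ hM0]
            nlinarith
          linarith
        have hpsi := psi_ge_one (ε := ε) (z := x - 1 / ((M:ℝ) + 1)) hε
        have e4 : 1 / ((M:ℝ) * ((M:ℝ)+1)) * psi ε (x - 1 / ((M:ℝ) + 1)) =
            (1 + 2 / (M:ℝ)) * (psi ε (x - 1 / ((M:ℝ) + 1)) * (1 / (((M:ℝ) + 1) * ((M:ℝ) + 2)))) := by
          field_simp
        rw [e4]
        have h9 : 0 ≤ psi ε (x - 1 / ((M:ℝ) + 1)) * (1 / (((M:ℝ) + 1) * ((M:ℝ) + 2))) := by
          have : (0:ℝ) ≤ psi ε (x - 1 / ((M:ℝ) + 1)) := by linarith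
          positivity
        have h10 := mul_le_mul_of_nonneg_right h2M h9
        have h11 : (1 + 5 * x) * (psi ε (x - 1 / ((M:ℝ) + 1)) * (1 / (((M:ℝ) + 1) * ((M:ℝ) + 2)))) ≤
            (1 + 5 * x) * (Psi ε (x - 1 / (((M + 1 : ℕ) : ℝ) + 1)) - Psi ε (x - 1 / ((M:ℝ) + 1))) :=
          mul_le_mul_of_nonneg_left ht (by linarith)
        linarith
    · have hM0 : M = 0 := by omega
      subst hM0
      simp only [Finset.range_zero, Finset.sum_empty, zero_add] at ih ⊢
      norm_num
      have := hnonneg (x - 1 / (((0 + 1 : ℕ) : ℝ) + 1))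
      norm_num at this
      exact this

/-- the mass near `0` -/
theorem N_small (h : Records P I) (j : ℕ) (hj : 1 ≤ j) (δ : ℝ) (hδ : δ ≤ 1 / j) :
    N P I (Set.Ici 1) 0 δ ≤ 1 / j := by
  have key : ∀ i, 1 ≤ i → i ≤ j → N P I (Set.Ici 1) 0 δ = 1 / (i:ℝ) * N P I (Set.Ici i) 0 δ := by
    intro i hi
    induction i, hi using Nat.le_induction with
    | base => intro _; simp
    | succ i hi ih =>
      intro hij
      rw [ih (by omega), Ici_eq_insert i, N_rec h (notMem_Ici i)]
      have h0 : N P I (Set.Ici (i+1)) (0 - 1 / ((i:ℝ) + 1)) (δ - 1 / ((i:ℝ) + 1)) = 0 := by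
        apply N_neg
        have h1 : 1 / (j:ℝ) ≤ 1 / ((i:ℝ) + 1) := by
          apply one_div_le_one_div_of_le (by positivity)
          exact_mod_cast hij
        linarith
      rw [h0, one_sub_inv]
      have hi0 : (0:ℝ) < i := by exact_mod_cast (by omega : 0 < i)
      push_cast
      field_simp
      ring
  rw [key j hj le_rfl]
  have hj0 : (0:ℝ) < j := by exact_mod_cast (by omega : 0 < j)
  have := N_le_one (P := P) (I := I) (Set.Ici j) 0 δ
  calc 1 / (j:ℝ) * N P I (Set.Ici j) 0 δ ≤ 1 / (j:ℝ) * 1 :=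
        mul_le_mul_of_nonneg_left this (by positivity)
    _ = 1 / j := mul_one _

theorem N_small' (h : Records P I) (δ : ℝ) (hδ : 0 < δ) (hδ1 : δ ≤ 1) :
    N P I (Set.Ici 1) 0 δ ≤ 2 * δ := by
  set j : ℕ := ⌊1 / δ⌋₊ with hj
  have h1 : 1 ≤ 1 / δ := by rw [le_div_iff₀ hδ]; linarith
  have hj1 : 1 ≤ j := by
    rw [hj]; exact Nat.le_floor (by exact_mod_cast h1)
  have hj2 : (j:ℝ) ≤ 1 / δ := Nat.floor_le (by positivity)
  have hj3 : 1 / δ < j + 1 := Nat.lt_floor_add_one _
  have hj0 : (0:ℝ) < j := by exact_mod_cast (by omega : 0 < j)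
  have hj1' : (1:ℝ) ≤ j := by exact_mod_cast hj1
  have h2 : δ ≤ 1 / j := by
    rw [le_div_iff₀ hj0]
    rw [le_div_iff₀ hδ] at hj2
    linarith
  refine (N_small h j hj1 δ h2).trans ?_
  rw [div_le_iff₀ hj0]
  rw [div_lt_iff₀ hδ] at hj3
  nlinarith

/-- one step of the maximum principle -/
theorem max_step (h : Records P I) {ε : ℝ} (hε : 0 < ε) (hε1 : ε ≤ 1 / 160) {M : ℝ} (hM : 0 ≤ M)
    (hQ : ∀ x, x ≤ 1 / 10 → N P I (Set.Ici 1) x (x + ε) ≤ M * psi ε x) :
    ∀ x, x ≤ 1 / 10 →
      N P I (Set.Ici 1) x (x + ε) ≤ max (34 * ε) ((1 - 3 * ε) * M) * psi ε x := by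
  intro x hx1
  have hpsi := psi_ge_one (ε := ε) (z := x) hε
  by_cases hx : x < 16 * ε
  · have h1 : N P I (Set.Ici 1) x (x + ε) ≤ N P I (Set.Ici 1) 0 (17 * ε) := by
      by_cases hx0 : 0 ≤ x
      · exact N_mono _ hx0 (by linarith)
      · -- `T ≥ 0`
        unfold N
        refine measureReal_mono fun ω hω => ?_
        exact ⟨T_nonneg I _ ω, lt_of_lt_of_le hω.2 (by linarith)⟩
    have h2 := N_small' h (17 * ε) (by positivity) (by linarith)
    calc N P I (Set.Ici 1) x (x + ε) ≤ 34 * ε := by linarith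
      _ ≤ max (34 * ε) ((1 - 3 * ε) * M) * 1 := by rw [mul_one]; exact le_max_left _ _
      _ ≤ _ := mul_le_mul_of_nonneg_left hpsi (le_max_of_le_left (by positivity))
  · have hx' : 16 * ε ≤ x := not_lt.1 hx
    have hx0 : 0 < x := by linarith
    have key := size_bias_gen h 1 le_rfl x (x + ε) hx0.le
      (fun k => M * (if x + ε ≤ 1 / ((k:ℝ) + 1) then 0 else psi ε (x - 1 / ((k:ℝ) + 1))))
      (fun k => by
        refine mul_nonneg hM ?_
        split_ifs
        · exact le_rfl
        · linarith [psi_ge_one (ε := ε) (z := x - 1 / ((k:ℝ) + 1)) hε])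
      (M * (x * psi ε x - 2 * ε))
      (by
        refine mul_nonneg hM ?_
        have := lyap hε hx' hx1
        have hP : 0 ≤ (1 + 5 * x) * (Psi ε x + ε) := by
          have h3 := Psi_mono hε (by linarith : -ε ≤ x)
          have h4 : Psi ε (-ε) = -ε := by unfold Psi; rw [if_pos (by linarith)]
          rw [h4] at h3
          exact mul_nonneg (by linarith) (by linarith)
        linarith)
      (by
        intro L
        have e : ∑ k ∈ Finset.range L, (if 1 ≤ k then 1 / ((k:ℝ) * ((k:ℝ)+1)) *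
            (M * (if x + ε ≤ 1 / ((k:ℝ) + 1) then 0 else psi ε (x - 1 / ((k:ℝ) + 1)))) else 0)
            = M * ∑ k ∈ Finset.range L, (if 1 ≤ k then 1 / ((k:ℝ) * ((k:ℝ)+1)) *
            (if x + ε ≤ 1 / ((k:ℝ) + 1) then 0 else psi ε (x - 1 / ((k:ℝ) + 1))) else 0) := by
          rw [Finset.mul_sum]
          refine Finset.sum_congr rfl fun k _ => ?_
          split_ifs <;> ring
        rw [e]
        refine mul_le_mul_of_nonneg_left ?_ hM
        refine (riemann hε hx' hx1 L).trans (le_trans ?_ (lyap hε hx' hx1))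
        refine mul_le_mul_of_nonneg_left ?_ (by linarith)
        have : Psi ε (max (x - 1 / ((L:ℝ) + 1)) (-ε)) ≤ Psi ε x := by
          apply Psi_mono hε
          have : (0:ℝ) < 1 / ((L:ℝ) + 1) := by positivity
          exact max_le (by linarith) (by linarith)
        linarith)
      (by
        intro k hk
        show N P I (Set.Ici 1) (x - 1 / ((k:ℝ) + 1)) (x + ε - 1 / ((k:ℝ) + 1)) ≤
          M * (if x + ε ≤ 1 / ((k:ℝ) + 1) then 0 else psi ε (x - 1 / ((k:ℝ) + 1)))
        by_cases hc : x + ε ≤ 1 / ((k:ℝ) + 1)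
        · simp only [hc, if_true, mul_zero]
          rw [N_neg _ _ _ (by linarith)]
        · simp only [hc, if_false]
          have h0 : (0:ℝ) < 1 / ((k:ℝ) + 1) := by positivity
          have := hQ (x - 1 / ((k:ℝ) + 1)) (by linarith)
          have e : x - 1 / ((k:ℝ) + 1) + ε = x + ε - 1 / ((k:ℝ) + 1) := by ring
          rw [e] at this
          exact this)
    -- conclude
    have hxpsi : x * psi ε x ≤ 2 / 3 := by
      unfold psi
      rw [if_neg (by linarith)]
      have h1 : 0 ≤ √ε / √x := by positivity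
      nlinarith
    have h3 : N P I (Set.Ici 1) x (x + ε) ≤ (1 - 3 * ε) * M * psi ε x := by
      have h4 : x * N P I (Set.Ici 1) x (x + ε) ≤ x * ((1 - 3 * ε) * M * psi ε x) := by
        refine key.trans ?_
        have : x * ((1 - 3 * ε) * M * psi ε x) - M * (x * psi ε x - 2 * ε)
            = M * ε * (2 - 3 * (x * psi ε x)) := by ring
        have h5 : 0 ≤ M * ε * (2 - 3 * (x * psi ε x)) :=
          mul_nonneg (by positivity) (by linarith)
        linarith
      exact le_of_mul_le_mul_left h4 hx0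
    refine h3.trans (mul_le_mul_of_nonneg_right (le_max_right _ _) (by linarith))

theorem local_bound (h : Records P I) {ε : ℝ} (hε : 0 < ε) (hε1 : ε ≤ 1 / 160) (x : ℝ)
    (hx : x ≤ 1 / 10) : N P I (Set.Ici 1) x (x + ε) ≤ 204 * ε := by
  have key : ∀ j : ℕ, ∀ x, x ≤ 1 / 10 →
      N P I (Set.Ici 1) x (x + ε) ≤ max (34 * ε) ((1 - 3 * ε) ^ j) * psi ε x := by
    intro j
    induction j with
    | zero => 
      intro x _
      rw [pow_zero]
      have h1 := N_le_one (P := P) (I := I) (Set.Ici 1) x (x + ε)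
      have h2 := psi_ge_one (ε := ε) (z := x) hε
      calc N P I (Set.Ici 1) x (x + ε) ≤ 1 * 1 := by linarith
        _ ≤ max (34 * ε) 1 * psi ε x :=
          mul_le_mul (le_max_right _ _) h2 (by norm_num) (le_max_of_le_right (by norm_num))
    | succ j ih =>
      intro x hx
      have h1 := max_step h hε hε1 (le_max_of_le_left (by positivity)) ih x hx
      refine h1.trans (mul_le_mul_of_nonneg_right ?_ (by linarith [psi_ge_one (ε := ε) (z := x) hε]))
      apply max_le (le_max_left _ _)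
      rcases le_total (34 * ε) ((1 - 3 * ε) ^ j) with hle | hle
      · rw [max_eq_right hle]
        refine le_trans (le_of_eq ?_) (le_max_right _ _)
        rw [pow_succ]; ring
      · rw [max_eq_left hle]
        refine le_trans ?_ (le_max_left _ _)
        nlinarith
  have hlim : Tendsto (fun j : ℕ => max (34 * ε) ((1 - 3 * ε) ^ j) * psi ε x) atTop
      (𝓝 (max (34 * ε) 0 * psi ε x)) := by
    have h1 : Tendsto (fun j : ℕ => (1 - 3 * ε) ^ j) atTop (𝓝 0) :=
      tendsto_pow_atTop_nhds_zero_of_lt_one (by linarith) (by linarith)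
    exact (tendsto_const_nhds.max h1).mul_const _
  have h2 := ge_of_tendsto' hlim (fun j => key j x hx)
  rw [max_eq_left (by positivity)] at h2
  refine h2.trans ?_
  have h3 : psi ε x ≤ 6 := by
    unfold psi
    split_ifs
    · norm_num
    · have h1 : 0 ≤ √ε / √x := by positivity
      linarith
  nlinarith

theorem tail_bound (h : Records P I) {ε : ℝ} (hε : 0 < ε) (hε1 : ε ≤ 1 / 160) (x : ℝ) :
    N P I (Set.Ici 20) x (x + ε) ≤ 4080 * ε := by
  have key : ∀ j : ℕ, ∀ x, N P I (Set.Ici 20) x (x + ε) ≤ max (4080 * ε) ((1 / 2) ^ j) := by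
    intro j
    induction j with
    | zero => intro x; rw [pow_zero]; exact (N_le_one _ _ _).trans (le_max_right _ _)
    | succ j ih =>
      intro x
      by_cases hx : x ≤ 1 / 10
      · refine le_trans ?_ (le_max_left _ _)
        have h1 := N_Ici_le h 20 (by norm_num) x (x + ε)
        have h2 := local_bound h hε hε1 x hx
        push_cast at h1
        linarith
      · have hx' : 1 / 10 < x := not_le.1 hx
        have h1 := size_bias h 20 (by norm_num) x (x + ε) (max (4080 * ε) ((1 / 2) ^ j))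
          (by linarith) (le_max_of_le_left (by positivity)) (fun k _ => by
            have := ih (x - 1 / ((k:ℝ) + 1))
            have e : x - 1 / ((k:ℝ) + 1) + ε = x + ε - 1 / ((k:ℝ) + 1) := by ring
            rw [e] at this
            exact this)
        push_cast at h1
        have h2 := N_nonneg (P := P) (I := I) (Set.Ici 20) x (x + ε)
        have h3 : N P I (Set.Ici 20) x (x + ε) ≤ max (4080 * ε) ((1 / 2) ^ j) / 2 := by nlinarith
        refine h3.trans ?_
        rcases le_total (4080 * ε) ((1 / 2) ^ j) with hle | hle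
        · rw [max_eq_right hle]
          refine le_trans (le_of_eq ?_) (le_max_right _ _)
          rw [pow_succ]; ring
        · rw [max_eq_left hle]
          refine le_trans ?_ (le_max_left _ _)
          linarith
  have hlim : Tendsto (fun j : ℕ => max (4080 * ε) ((1 / 2 : ℝ) ^ j)) atTop
      (𝓝 (max (4080 * ε) 0)) := by
    have h1 : Tendsto (fun j : ℕ => (1 / 2 : ℝ) ^ j) atTop (𝓝 0) :=
      tendsto_pow_atTop_nhds_zero_of_lt_one (by norm_num) (by norm_num)
    exact tendsto_const_nhds.max h1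
  have h2 := ge_of_tendsto' hlim (fun j => key j x)
  rwa [max_eq_left (by positivity)] at h2

theorem full_bound (h : Records P I) {ε : ℝ} (hε : 0 < ε) (x : ℝ) :
    N P I (Set.Ici 1) x (x + ε) ≤ 4080 * ε := by
  by_cases hε1 : ε ≤ 1 / 160
  · have key : ∀ j : ℕ, j ≤ 19 → ∀ x, N P I (Set.Ici (20 - j)) x (x + ε) ≤ 4080 * ε := by
      intro j
      induction j with
      | zero => intro _ x; exact tail_bound h hε hε1 x
      | succ j ih =>
        intro hj x
        have ih' := ih (by omega)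
        have e : 20 - j = (20 - (j + 1)) + 1 := by omega
        rw [e] at ih'
        rw [Ici_eq_insert, N_rec h (notMem_Ici _)]
        set k := 20 - (j + 1) with hk
        have h1 := ih' x
        have h2 := ih' (x - 1 / ((k:ℝ) + 1))
        have e2 : x - 1 / ((k:ℝ) + 1) + ε = x + ε - 1 / ((k:ℝ) + 1) := by ring
        rw [e2] at h2
        have h3 : (0:ℝ) ≤ 1 - 1 / ((k:ℝ) + 1) := by rw [one_sub_inv]; positivity
        have h4 : (0:ℝ) ≤ 1 / ((k:ℝ) + 1) := by positivity
        have h5 := mul_le_mul_of_nonneg_left h1 h3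
        have h6 := mul_le_mul_of_nonneg_left h2 h4
        linarith
    have := key 19 le_rfl x
    simpa using this
  · have h1 := N_le_one (P := P) (I := I) (Set.Ici 1) x (x + ε)
    have h2 : 1 / 160 < ε := not_le.1 hε1
    linarith

end H143RH
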