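import Pool.Agent.H143RH.Bounded

/-! From intervals to Borel sets. -/

open MeasureTheory ProbabilityTheory Filter Topology Set
open scoped ENNReal

namespace H143RH

theorem le_volume_of_Ioc (ν : Measure ℝ)
    (h : ∀ a b : ℝ, a ≤ b → ν (Ioc a b) ≤ ENNReal.ofReal (b - a)) : ν ≤ volume := by
  rw [Real.volume_eq_stieltjes_id, Measure.le_iff']
  intro s
  rw [StieltjesFunction.measure]
  show ν.toOuterMeasure s ≤ StieltjesFunction.id.outer s
  have key : ν.toOuterMeasure ≤ StieltjesFunction.id.outer := by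
    unfold StieltjesFunction.outer
    rw [OuterMeasure.le_ofFunction]
    intro s
    rw [StieltjesFunction.length_eq]
    refine le_iInf fun a => le_iInf fun b => le_iInf fun hs => ?_
    have hbot : (botSet : Set ℝ) = ∅ := by
      ext x
      simp [botSet]
    rw [hbot, sdiff_empty] at hs
    rcases le_total a b with hab | hab
    · exact (measure_mono hs).trans (h a b hab)
    · rw [Ioc_eq_empty (by linarith)] at hs
      rw [subset_empty_iff] at hs
      rw [hs]
      simp
  exact key s

theorem le_smul_volume (μ : Measure ℝ) (C : ℝ) (hC : 0 < C)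
    (h : ∀ a b : ℝ, a ≤ b → μ (Ioc a b) ≤ ENNReal.ofReal (C * (b - a))) :
    μ ≤ ENNReal.ofReal C • volume := by
  have hC0 : ENNReal.ofReal C ≠ 0 := by
    rw [Ne, ENNReal.ofReal_eq_zero, not_le]; exact hC
  have hCt : ENNReal.ofReal C ≠ ∞ := ENNReal.ofReal_ne_top
  have h1 : (ENNReal.ofReal C)⁻¹ • μ ≤ volume := by
    apply le_volume_of_Ioc
    intro a b hab
    rw [Measure.smul_apply, smul_eq_mul]
    calc (ENNReal.ofReal C)⁻¹ * μ (Ioc a b) ≤ (ENNReal.ofReal C)⁻¹ * ENNReal.ofReal (C * (b - a)) := by
          gcongr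
          exact h a b hab
      _ = ENNReal.ofReal (b - a) := by
          rw [ENNReal.ofReal_mul hC.le, ← mul_assoc, ENNReal.inv_mul_cancel hC0 hCt, one_mul]
  rw [Measure.le_iff'] at h1 ⊢
  intro s
  have h2 := h1 s
  rw [Measure.smul_apply, smul_eq_mul] at h2 ⊢
  calc μ s = ENNReal.ofReal C * ((ENNReal.ofReal C)⁻¹ * μ s) := by
        rw [← mul_assoc, ENNReal.mul_inv_cancel hC0 hCt, one_mul]
    _ ≤ ENNReal.ofReal C * volume s := by gcongr

variable {Ω : Type*} [mΩ : MeasurableSpace Ω] {P : Measure Ω} [IsProbabilityMeasure P]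
  {I : ℕ → Ω → ℝ}

theorem law_le (h : Records P I) : P.map (S I) ≤ ENNReal.ofReal 4080 • volume := by
  have : IsProbabilityMeasure (P.map (S I)) :=
    Measure.isProbabilityMeasure_map (measurable_S h).aemeasurable
  apply le_smul_volume _ _ (by norm_num)
  intro a b hab
  have key : ∀ η : ℝ, 0 < η → (P.map (S I)).real (Ioc a b) ≤ 4080 * (b - a) + 4080 * η := by
    intro η hη
    have h1 : (P.map (S I)).real (Ioc a b) ≤ (P.map (S I)).real (Ico a (b + η)) := by
      refine measureReal_mono ?_
      intro x hx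
      exact ⟨hx.1.le, by linarith [hx.2]⟩
    have h2 := full_bound h (ε := b + η - a) (by linarith) (a - 1)
    rw [N_eq_map h] at h2
    have e1 : 1 + (a - 1) = a := by ring
    have e2 : 1 + (a - 1 + (b + η - a)) = b + η := by ring
    rw [e1, e2] at h2
    linarith
  have h3 : (P.map (S I)).real (Ioc a b) ≤ 4080 * (b - a) := by
    refine le_of_forall_pos_le_add fun e he => ?_
    have := key (e / 4080) (by positivity)
    linarith
  rw [← ofReal_measureReal]
  exact ENNReal.ofReal_le_ofReal h3

end H143RH
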