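import Pool.Agent.H143RH.Basic

/-! Recursions for the laws of the partial sums. -/

open MeasureTheory ProbabilityTheory Filter Topology
open scoped ENNReal

namespace H143RH

variable {Ω : Type*} [mΩ : MeasurableSpace Ω] {P : Measure Ω} [IsProbabilityMeasure P]
  {I : ℕ → Ω → ℝ}

theorem indep_T (h : Records P I) {A : Set ℕ} {k : ℕ} (hk : k ∉ A) :
    IndepFun (I k) (T I A) P := by
  have hle : ∀ i, MeasurableSpace.comap (I i) inferInstance ≤ mΩ := fun i =>
    (h.meas i).comap_le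
  have hd : Disjoint ({k} : Set ℕ) A := by
    rw [Set.disjoint_singleton_left]; exact hk
  have hI := indep_iSup_of_disjoint hle (iIndepFun.iIndep h.indep) hd
  rw [IndepFun_iff_Indep]
  refine indep_of_indep_of_le_left (indep_of_indep_of_le_right hI ?_) ?_
  · -- T measurable wrt the sup
    set m' : MeasurableSpace Ω := ⨆ i ∈ A, MeasurableSpace.comap (I i) inferInstance with hm'
    have hT : Measurable[m'] (T I A) := by
      have hTE : Measurable[m'] (TE I A) := by
        unfold TE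
        refine @Measurable.ennreal_tsum Ω m' ℕ _ _ fun j => ?_
        by_cases hj : j ∈ A
        · simp only [Set.indicator_of_mem hj]
          have hIj : Measurable[m'] (I j) := by
            have h1 : Measurable[MeasurableSpace.comap (I j) inferInstance] (I j) :=
              comap_measurable (I j)
            exact h1.mono (le_iSup₂_of_le j hj le_rfl) le_rfl
          have hg : Measurable (fun x : ℝ => ENNReal.ofReal (x / ((j:ℝ) + 1))) :=
            (measurable_id.div_const _).ennreal_ofReal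
          exact hg.comp hIj
        · simp only [Set.indicator_of_notMem hj]
          exact @measurable_const _ _ _ m' _
      exact @Measurable.ennreal_toReal Ω m' _ hTE
    exact hT.comap_le
  · exact le_iSup₂_of_le k (Set.mem_singleton k) le_rfl

/-- `P(u ≤ T_A < v)` -/
noncomputable def N (P : Measure Ω) (I : ℕ → Ω → ℝ) (A : Set ℕ) (u v : ℝ) : ℝ :=
  P.real {ω | T I A ω ∈ Set.Ico u v}

theorem N_nonneg (A : Set ℕ) (u v : ℝ) : 0 ≤ N P I A u v := measureReal_nonneg

theorem N_neg (A : Set ℕ) (u v : ℝ) (hv : v ≤ 0) : N P I A u v = 0 := by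
  unfold N
  have : {ω | T I A ω ∈ Set.Ico u v} = ∅ := by
    ext ω
    simp only [Set.mem_ofPred_eq, Set.mem_Ico, Set.mem_empty_iff_false, iff_false, not_and, not_lt]
    intro _
    exact le_trans hv (T_nonneg I A ω)
  rw [this, measureReal_empty]

theorem measurableSet_Ico_T (h : Records P I) (A : Set ℕ) (u v : ℝ) :
    MeasurableSet {ω | T I A ω ∈ Set.Ico u v} := measurable_T h A measurableSet_Ico

theorem measurableSet_zero (h : Records P I) (k : ℕ) : MeasurableSet {ω | I k ω = 0} :=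
  h.meas k (measurableSet_singleton 0)

theorem real_zero (h : Records P I) (k : ℕ) :
    P.real {ω | I k ω = 0} = 1 - 1 / ((k:ℝ) + 1) := by
  have e : {ω | I k ω = 0} = {ω | I k ω = 1}ᶜ := by
    ext ω
    simp only [Set.mem_ofPred_eq, Set.mem_compl_iff]
    rcases h.zero_one k ω with h0 | h1
    · rw [h0]; norm_num
    · rw [h1]; norm_num
  rw [e, probReal_compl_eq_one_sub (measurableSet_one h k), h.prob k]

theorem real_inter (h : Records P I) {A : Set ℕ} {k : ℕ} (hk : k ∉ A) (c : ℝ) (u v : ℝ) :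
    P.real ({ω | I k ω = c} ∩ {ω | T I A ω ∈ Set.Ico u v}) =
      P.real {ω | I k ω = c} * N P I A u v := by
  have hI := (indep_T h hk).measure_inter_preimage_eq_mul {c} (Set.Ico u v)
    (measurableSet_singleton c) measurableSet_Ico
  unfold N Measure.real
  rw [← ENNReal.toReal_mul]
  congr 1

theorem inter_one (h : Records P I) {A : Set ℕ} {k : ℕ} (hk : k ∉ A) (u v : ℝ) :
    P.real ({ω | I k ω = 1} ∩ {ω | T I (insert k A) ω ∈ Set.Ico u v}) =
      1 / ((k:ℝ) + 1) * N P I A (u - 1 / ((k:ℝ) + 1)) (v - 1 / ((k:ℝ) + 1)) := by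
  rw [← h.prob k, ← real_inter h hk, h.prob k]
  apply measureReal_congr
  filter_upwards [ae_lt_top_univ h] with ω hω
  apply propext
  show (I k ω = 1 ∧ T I (insert k A) ω ∈ Set.Ico u v) ↔
    (I k ω = 1 ∧ T I A ω ∈ Set.Ico (u - 1 / ((k:ℝ) + 1)) (v - 1 / ((k:ℝ) + 1)))
  rw [T_insert I hk (h.nonneg k ω) hω]
  constructor
  · rintro ⟨h1, h2, h3⟩
    rw [h1] at h2 h3
    exact ⟨h1, by linarith, by linarith⟩
  · rintro ⟨h1, h2, h3⟩
    refine ⟨h1, ?_, ?_⟩
    · rw [h1]; linarith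
    · rw [h1]; linarith

theorem inter_zero (h : Records P I) {A : Set ℕ} {k : ℕ} (hk : k ∉ A) (u v : ℝ) :
    P.real ({ω | I k ω = 0} ∩ {ω | T I (insert k A) ω ∈ Set.Ico u v}) =
      (1 - 1 / ((k:ℝ) + 1)) * N P I A u v := by
  rw [← real_zero h k, ← real_inter h hk]
  apply measureReal_congr
  filter_upwards [ae_lt_top_univ h] with ω hω
  apply propext
  show (I k ω = 0 ∧ T I (insert k A) ω ∈ Set.Ico u v) ↔ (I k ω = 0 ∧ T I A ω ∈ Set.Ico u v)
  rw [T_insert I hk (h.nonneg k ω) hω]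
  constructor
  · rintro ⟨h1, h2, h3⟩
    rw [h1] at h2 h3
    simp only [zero_div, add_zero] at h2 h3
    exact ⟨h1, h2, h3⟩
  · rintro ⟨h1, h2, h3⟩
    refine ⟨h1, ?_⟩
    rw [h1, zero_div, add_zero]
    exact ⟨h2, h3⟩

/-- the basic recursion -/
theorem N_rec (h : Records P I) {A : Set ℕ} {k : ℕ} (hk : k ∉ A) (u v : ℝ) :
    N P I (insert k A) u v = (1 - 1 / ((k:ℝ) + 1)) * N P I A u v +
      1 / ((k:ℝ) + 1) * N P I A (u - 1 / ((k:ℝ) + 1)) (v - 1 / ((k:ℝ) + 1)) := by
  rw [← inter_zero h hk, ← inter_one h hk]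
  unfold N
  rw [← measureReal_union]
  · congr 1
    ext ω
    simp only [Set.mem_union, Set.mem_inter_iff, Set.mem_ofPred_eq]
    rcases h.zero_one k ω with h0 | h1
    · rw [h0]; simp
    · rw [h1]; simp
  · rw [Set.disjoint_left]
    rintro ω ⟨h1, _⟩ ⟨h2, _⟩
    rw [Set.mem_ofPred_eq] at h1 h2
    rw [h1] at h2
    norm_num at h2
  · exact (measurableSet_one h k).inter (measurableSet_Ico_T h _ u v)

theorem one_sub_inv (k : ℕ) : (1:ℝ) - 1 / ((k:ℝ) + 1) = (k:ℝ) / ((k:ℝ) + 1) := by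
  field_simp
  ring

theorem N_insert_ge (h : Records P I) {A : Set ℕ} {k : ℕ} (hk : k ∉ A) (u v : ℝ) :
    (k:ℝ) / ((k:ℝ) + 1) * N P I A u v ≤ N P I (insert k A) u v := by
  rw [N_rec h hk, one_sub_inv]
  have := N_nonneg (P := P) (I := I) A (u - 1 / ((k:ℝ) + 1)) (v - 1 / ((k:ℝ) + 1))
  have : 0 ≤ 1 / ((k:ℝ) + 1) * N P I A (u - 1 / ((k:ℝ) + 1)) (v - 1 / ((k:ℝ) + 1)) := by positivity
  linarith

theorem inter_one_le (h : Records P I) {A : Set ℕ} {k : ℕ} (hk : k ∈ A) (hk1 : 1 ≤ k) (u v : ℝ) :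
    P.real ({ω | I k ω = 1} ∩ {ω | T I A ω ∈ Set.Ico u v}) ≤
      1 / (k:ℝ) * N P I A (u - 1 / ((k:ℝ) + 1)) (v - 1 / ((k:ℝ) + 1)) := by
  have hA : insert k (A \ {k}) = A := by
    rw [Set.insert_sdiff_singleton, Set.insert_eq_of_mem hk]
  have hnot : k ∉ A \ {k} := by simp
  have e := inter_one h hnot u v
  rw [hA] at e
  rw [e]
  have hge := N_insert_ge h hnot (u - 1 / ((k:ℝ) + 1)) (v - 1 / ((k:ℝ) + 1))
  rw [hA] at hge
  have hk0 : (0:ℝ) < k := by exact_mod_cast (by omega : 0 < k)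
  have e2 : 1 / ((k:ℝ) + 1) * N P I (A \ {k}) (u - 1 / ((k:ℝ) + 1)) (v - 1 / ((k:ℝ) + 1))
      = 1 / (k:ℝ) * ((k:ℝ) / ((k:ℝ) + 1) *
        N P I (A \ {k}) (u - 1 / ((k:ℝ) + 1)) (v - 1 / ((k:ℝ) + 1))) := by
    field_simp
  rw [e2]
  exact mul_le_mul_of_nonneg_left hge (by positivity)

/-- the size-bias inequality -/
theorem size_bias (h : Records P I) (m : ℕ) (hm : 1 ≤ m) (u v K : ℝ) (hu : 0 ≤ u) (hK : 0 ≤ K)
    (hN : ∀ k, m ≤ k → N P I (Set.Ici m) (u - 1 / ((k:ℝ) + 1)) (v - 1 / ((k:ℝ) + 1)) ≤ K) :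
    u * N P I (Set.Ici m) u v ≤ K / m := by
  set s : Set Ω := {ω | T I (Set.Ici m) ω ∈ Set.Ico u v} with hs
  have hsm : MeasurableSet s := measurableSet_Ico_T h _ u v
  have h1 : ENNReal.ofReal u * P s ≤ ∫⁻ ω in s, TE I (Set.Ici m) ω ∂P := by
    rw [← setLIntegral_const]
    refine setLIntegral_mono_ae' hsm ?_
    filter_upwards [ae_lt_top_univ h] with ω hω hωs
    have hlt : TE I (Set.Ici m) ω < ∞ := lt_of_le_of_lt (TE_mono I (Set.subset_univ _) ω) hω
    have : u ≤ (TE I (Set.Ici m) ω).toReal := hωs.1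
    exact (ENNReal.ofReal_le_iff_le_toReal hlt.ne).2 this
  have h2 : ∫⁻ ω in s, TE I (Set.Ici m) ω ∂P ≤ ENNReal.ofReal (K / m) := by
    unfold TE
    rw [lintegral_tsum]
    · refine ENNReal.tsum_le_of_sum_range_le fun M => ?_
      have hb : ∀ k, ∫⁻ ω in s, (Set.Ici m).indicator (fun k => term I k ω) k ∂P
          ≤ ENNReal.ofReal (if m ≤ k then 1 / ((k:ℝ) * ((k:ℝ)+1)) * K else 0) := by
        intro k
        by_cases hk : m ≤ k
        · simp only [Set.indicator_of_mem (Set.mem_Ici.2 hk), hk, if_true]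
          rw [lintegral_term h k s hsm]
          have hr := inter_one_le h (A := Set.Ici m) (Set.mem_Ici.2 hk) (hm.trans hk) u v
          have hr2 := hN k hk
          have hk0 : (0:ℝ) < k := by exact_mod_cast (by omega : 0 < k)
          rw [← ofReal_measureReal, ← ENNReal.ofReal_mul (by positivity)]
          apply ENNReal.ofReal_le_ofReal
          calc 1 / ((k:ℝ) + 1) * P.real ({ω | I k ω = 1} ∩ s)
              ≤ 1 / ((k:ℝ) + 1) * (1 / (k:ℝ) * K) := by
                apply mul_le_mul_of_nonneg_left _ (by positivity)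
                exact hr.trans (mul_le_mul_of_nonneg_left hr2 (by positivity))
            _ = 1 / ((k:ℝ) * ((k:ℝ)+1)) * K := by field_simp
        · simp [Set.indicator_of_notMem (by rw [Set.mem_Ici]; exact hk : k ∉ Set.Ici m)]
      calc _ ≤ ∑ k ∈ Finset.range M,
            ENNReal.ofReal (if m ≤ k then 1 / ((k:ℝ) * ((k:ℝ)+1)) * K else 0) :=
            Finset.sum_le_sum fun k _ => hb k
        _ = ENNReal.ofReal (∑ k ∈ Finset.range M,
            (if m ≤ k then 1 / ((k:ℝ) * ((k:ℝ)+1)) * K else 0)) := by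
            rw [ENNReal.ofReal_sum_of_nonneg]
            intro k _
            split_ifs <;> positivity
        _ ≤ _ := by
            apply ENNReal.ofReal_le_ofReal
            have e : ∑ k ∈ Finset.range M, (if m ≤ k then 1 / ((k:ℝ) * ((k:ℝ)+1)) * K else 0)
                = K * ∑ k ∈ Finset.range M, (if m ≤ k then 1 / ((k:ℝ) * ((k:ℝ)+1)) else 0) := by
              rw [Finset.mul_sum]
              refine Finset.sum_congr rfl fun k _ => ?_
              split_ifs <;> ring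
            rw [e]
            calc _ ≤ K * (1 / (m:ℝ)) := mul_le_mul_of_nonneg_left (sum_tele m hm M) hK
              _ = K / m := by ring
    · intro k
      by_cases hk : k ∈ Set.Ici m
      · simp only [Set.indicator_of_mem hk]; exact (measurable_term h k).aemeasurable
      · simp only [Set.indicator_of_notMem hk]; exact aemeasurable_const
  have h3 := h1.trans h2
  rw [← ofReal_measureReal (μ := P) (s := s), ← ENNReal.ofReal_mul hu] at h3
  exact (ENNReal.ofReal_le_ofReal_iff (by positivity)).1 h3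

/-- iterated bound -/
theorem iterate_bound (h : Records P I) (m : ℕ) (hm : 1 ≤ m) (δ η M : ℝ) (hδ : 0 < δ) (hM : 0 ≤ M)
    (hN : ∀ u v, δ ≤ u → u ≤ v → v ≤ η → N P I (Set.Ici m) u v ≤ M * (v - u)) (j : ℕ) :
    ∀ u v, δ + j / m ≤ u → u ≤ v → v ≤ η →
      N P I (Set.Ici m) u v ≤ M * (v - u) / (m * δ) ^ j := by
  have hm0 : (0:ℝ) < m := by exact_mod_cast (by omega : 0 < m)
  induction j with
  | zero => 
    intro u v hu huv hv
    simp only [Nat.cast_zero, zero_div, add_zero] at hu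
    rw [pow_zero, div_one]
    exact hN u v hu huv hv
  | succ j ih =>
    intro u v hu huv hv
    push_cast at hu
    have hu' : δ ≤ u := by
      have : 0 ≤ ((j:ℝ) + 1) / m := by positivity
      linarith
    have hu0 : 0 < u := lt_of_lt_of_le hδ hu'
    have hvu : 0 ≤ v - u := by linarith
    have key := size_bias h m hm u v (M * (v - u) / (m * δ) ^ j) hu0.le (by positivity) (by
      intro k hk
      have hk' : (m:ℝ) ≤ k := by exact_mod_cast hk
      have h1 : 1 / ((k:ℝ) + 1) ≤ 1 / m := one_div_le_one_div_of_le hm0 (by linarith)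
      have h2 : (0:ℝ) < 1 / ((k:ℝ) + 1) := by positivity
      have e := ih (u - 1 / ((k:ℝ) + 1)) (v - 1 / ((k:ℝ) + 1)) (by
        have : ((j:ℝ) + 1) / m = j / m + 1 / m := by ring
        linarith) (by linarith) (by linarith)
      have e2 : v - 1 / ((k:ℝ) + 1) - (u - 1 / ((k:ℝ) + 1)) = v - u := by ring
      rw [e2] at e
      exact e)
    have hN0 := N_nonneg (P := P) (I := I) (Set.Ici m) u v
    have h4 : δ * N P I (Set.Ici m) u v ≤ M * (v - u) / (m * δ) ^ j / m :=
      (mul_le_mul_of_nonneg_right hu' hN0).trans key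
    rw [← le_div_iff₀' hδ] at h4
    refine h4.trans (le_of_eq ?_)
    rw [pow_succ]
    field_simp

theorem Ici_eq_insert (m : ℕ) : Set.Ici m = insert m (Set.Ici (m+1)) := by
  ext k; simp; omega

theorem notMem_Ici (m : ℕ) : m ∉ Set.Ici (m+1) := by simp

/-- comparison with the whole sum -/
theorem N_Ici_le (h : Records P I) (m : ℕ) (hm : 1 ≤ m) (u v : ℝ) :
    N P I (Set.Ici m) u v ≤ m * N P I (Set.Ici 1) u v := by
  induction m, hm using Nat.le_induction with
  | base => simp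
  | succ m hm ih =>
    have hge := N_insert_ge h (notMem_Ici m) u v
    rw [← Ici_eq_insert] at hge
    have hm0 : (0:ℝ) < m := by exact_mod_cast (by omega : 0 < m)
    have h2 := hge.trans ih
    push_cast
    rw [div_mul_eq_mul_div, div_le_iff₀ (by positivity)] at h2
    nlinarith [N_nonneg (P := P) (I := I) (Set.Ici (m+1)) u v,
      N_nonneg (P := P) (I := I) (Set.Ici 1) u v]

theorem N_Ici_ge (h : Records P I) (m : ℕ) (hm : 1 ≤ m) (u v : ℝ) (M : ℕ) (hM : m ≤ M) :
    (m:ℝ) / M * N P I (Set.Ici M) u v ≤ N P I (Set.Ici m) u v := by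
  induction M, hM using Nat.le_induction with
  | base =>
    have hm0 : (0:ℝ) < m := by exact_mod_cast (by omega : 0 < m)
    rw [div_self hm0.ne', one_mul]
  | succ M hM ih =>
    have hge := N_insert_ge h (notMem_Ici M) u v
    rw [← Ici_eq_insert] at hge
    have hm0 : (0:ℝ) < m := by exact_mod_cast (by omega : 0 < m)
    have hM0 : (0:ℝ) < M := by exact_mod_cast (by omega : 0 < M)
    refine le_trans ?_ ih
    have e : (m:ℝ) / ((M + 1 : ℕ):ℝ) * N P I (Set.Ici (M+1)) u v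
        = (m:ℝ) / M * ((M:ℝ) / ((M:ℝ) + 1) * N P I (Set.Ici (M+1)) u v) := by
      push_cast; field_simp
    rw [e]
    exact mul_le_mul_of_nonneg_left hge (by positivity)

/-- Markov -/
theorem N_markov (h : Records P I) (M : ℕ) (hM : 1 ≤ M) (ε : ℝ) (hε : 0 < ε) :
    1 - 1 / (M * ε) ≤ N P I (Set.Ici M) 0 ε := by
  have hM0 : (0:ℝ) < M := by exact_mod_cast (by omega : 0 < M)
  have hcompl : P.real {ω | T I (Set.Ici M) ω ∈ Set.Ico 0 ε}ᶜ ≤ 1 / (M * ε) := by
    have hsub : P ({ω | T I (Set.Ici M) ω ∈ Set.Ico 0 ε}ᶜ) ≤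
        P {ω | ENNReal.ofReal ε ≤ TE I (Set.Ici M) ω} := by
      refine measure_mono_ae ?_
      filter_upwards [ae_lt_top_univ h] with ω hω hc
      have hlt : TE I (Set.Ici M) ω < ∞ := lt_of_le_of_lt (TE_mono I (Set.subset_univ _) ω) hω
      have h1 : ¬ (T I (Set.Ici M) ω ∈ Set.Ico 0 ε) := hc
      have h2 : ε ≤ T I (Set.Ici M) ω := by
        by_contra hcon
        exact h1 ⟨T_nonneg I _ ω, not_le.1 hcon⟩
      exact (ENNReal.ofReal_le_iff_le_toReal hlt.ne).2 h2
    have hmk := mul_meas_ge_le_lintegral (μ := P) (measurable_TE h (Set.Ici M)) (ENNReal.ofReal ε)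
    have h3 : ENNReal.ofReal ε * P ({ω | T I (Set.Ici M) ω ∈ Set.Ico 0 ε}ᶜ) ≤
        ENNReal.ofReal (1 / (M:ℝ)) :=
      (mul_le_mul_right hsub _).trans (hmk.trans (lintegral_TE_Ici h M hM))
    rw [← ofReal_measureReal, ← ENNReal.ofReal_mul hε.le] at h3
    have h4 := (ENNReal.ofReal_le_ofReal_iff (by positivity)).1 h3
    rw [← le_div_iff₀' hε] at h4
    refine h4.trans (le_of_eq ?_)
    field_simp
  rw [probReal_compl_eq_one_sub (measurableSet_Ico_T h _ 0 ε)] at hcompl
  unfold N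
  linarith

theorem N_lower (h : Records P I) (m : ℕ) (hm : 1 ≤ m) (ε : ℝ) (hε : 0 < ε) (hε1 : ε ≤ 1 / m) :
    ε / 6 ≤ N P I (Set.Ici m) 0 ε := by
  have hm0 : (0:ℝ) < m := by exact_mod_cast (by omega : 0 < m)
  have hm1 : (1:ℝ) ≤ m := by exact_mod_cast hm
  obtain ⟨M, hM1, hM2⟩ : ∃ M : ℕ, 2 / ε ≤ M ∧ (M:ℝ) < 2 / ε + 1 :=
    ⟨⌈2 / ε⌉₊, Nat.le_ceil _, Nat.ceil_lt_add_one (by positivity)⟩
  have hεm : 1 / ε ≥ m := by
    rw [ge_iff_le, le_div_iff₀ hε]
    rw [le_div_iff₀ hm0] at hε1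
    linarith
  have hε' : ε ≤ 1 := hε1.trans (by rw [div_le_one hm0]; exact hm1)
  have h2ε : 2 / ε = 2 * (1 / ε) := by ring
  have hmM : m ≤ M := by
    have : (m:ℝ) ≤ M := by rw [h2ε] at hM1; linarith
    exact_mod_cast this
  have hM0 : (0:ℝ) < M := by linarith [(by positivity : (0:ℝ) < 2 / ε)]
  have hge := N_Ici_ge h m hm 0 ε M hmM
  have hmk := N_markov h M (hm.trans hmM) ε hε
  have hMε : 2 ≤ M * ε := by rw [div_le_iff₀ hε] at hM1; exact hM1
  have hMε3 : M * ε ≤ 3 := by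
    have h1 : (M:ℝ) * ε < (2 / ε + 1) * ε := mul_lt_mul_of_pos_right hM2 hε
    have h2 : (2 / ε + 1) * ε = 2 + ε := by field_simp
    linarith
  have h12 : 1 / (M * ε) ≤ 1 / 2 := one_div_le_one_div_of_le (by norm_num) hMε
  have hN2 : 1 / 2 ≤ N P I (Set.Ici M) 0 ε := by linarith
  refine le_trans ?_ hge
  calc ε / 6 ≤ (m:ℝ) / M * (1 / 2) := by
        rw [div_mul_div_comm, div_le_div_iff₀ (by norm_num) (by positivity)]
        nlinarith
    _ ≤ _ := mul_le_mul_of_nonneg_left hN2 (by positivity)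

end H143RH
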