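import Pool.Agent.H143RH.Padic

/-! No density is continuous on `(1, 1 + R)`. -/

open MeasureTheory ProbabilityTheory Filter Topology
open scoped ENNReal

namespace H143RH

variable {Ω : Type*} [mΩ : MeasurableSpace Ω] {P : Measure Ω} [IsProbabilityMeasure P]
  {I : ℕ → Ω → ℝ}

/-- The record harmonic series `S = ∑_{n ≥ 1} I_n / n` (with `I_n = I (n-1)`). -/
noncomputable def S (I : ℕ → Ω → ℝ) (ω : Ω) : ℝ := ∑' k : ℕ, I k ω / ((k : ℝ) + 1)

theorem S_eq (h : Records P I) (ω : Ω) : S I ω = T I Set.univ ω := by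
  unfold S T TE
  rw [ENNReal.tsum_toReal_eq]
  · refine tsum_congr fun k => ?_
    rw [Set.indicator_of_mem (Set.mem_univ k)]
    unfold term
    rw [ENNReal.toReal_ofReal]
    have := h.nonneg k ω
    positivity
  · intro k
    rw [Set.indicator_of_mem (Set.mem_univ k)]
    exact (term_lt_top I k ω).ne

theorem S_ae (h : Records P I) : ∀ᵐ ω ∂P, S I ω = 1 + T I (Set.Ici 1) ω := by
  have h0 : ∀ᵐ ω ∂P, I 0 ω = 1 := by
    have hp := h.prob 0
    simp only [Nat.cast_zero, zero_add, div_one] at hp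
    have hc : P.real {ω | I 0 ω = 1}ᶜ = 0 := by
      rw [probReal_compl_eq_one_sub (measurableSet_one h 0), hp, sub_self]
    rw [measureReal_eq_zero_iff] at hc
    exact hc
  filter_upwards [h0, ae_lt_top_univ h] with ω h0 hω
  rw [S_eq h]
  have e : (Set.univ : Set ℕ) = insert 0 (Set.Ici 1) := by
    ext k; simp; omega
  conv_lhs => rw [e]
  rw [T_insert I (by simp) (h.nonneg 0 ω) hω, h0]
  simp [add_comm]

theorem measurable_S (h : Records P I) : Measurable (S I) := by
  have : S I = T I Set.univ := funext (S_eq h)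
  rw [this]; exact measurable_T h _

theorem N_eq_map (h : Records P I) (u v : ℝ) :
    N P I (Set.Ici 1) u v = (P.map (S I)).real (Set.Ico (1 + u) (1 + v)) := by
  unfold N
  rw [map_measureReal_apply (measurable_S h) measurableSet_Ico]
  apply measureReal_congr
  filter_upwards [S_ae h] with ω hω
  apply propext
  show T I (Set.Ici 1) ω ∈ Set.Ico u v ↔ S I ω ∈ Set.Ico (1 + u) (1 + v)
  rw [hω, Set.mem_Ico, Set.mem_Ico]
  constructor
  · rintro ⟨h1, h2⟩; constructor <;> linarith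
  · rintro ⟨h1, h2⟩; constructor <;> linarith

section density

variable {g : ℝ → ℝ}

theorem dens_upper (h : Records P I)
    (hg : P.map (S I) = volume.withDensity (fun x => ENNReal.ofReal (g x)))
    {u v K : ℝ} (huv : u ≤ v) (hK : 0 ≤ K) (hb : ∀ x ∈ Set.Ico (1 + u) (1 + v), g x ≤ K) :
    N P I (Set.Ici 1) u v ≤ K * (v - u) := by
  rw [N_eq_map h, hg]
  unfold Measure.real
  rw [withDensity_apply _ measurableSet_Ico]
  have h1 : ∫⁻ x in Set.Ico (1 + u) (1 + v), ENNReal.ofReal (g x) ≤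
      ∫⁻ x in Set.Ico (1 + u) (1 + v), ENNReal.ofReal K :=
    setLIntegral_mono measurable_const fun x hx => ENNReal.ofReal_le_ofReal (hb x hx)
  rw [setLIntegral_const, Real.volume_Ico, ← ENNReal.ofReal_mul hK] at h1
  have h2 := ENNReal.toReal_mono ENNReal.ofReal_ne_top h1
  rw [ENNReal.toReal_ofReal (by
    have : 0 ≤ 1 + v - (1 + u) := by linarith
    positivity)] at h2
  refine h2.trans (le_of_eq (by ring))

theorem dens_lower (h : Records P I)
    (hg : P.map (S I) = volume.withDensity (fun x => ENNReal.ofReal (g x)))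
    {u v c : ℝ} (huv : u ≤ v) (hb : ∀ x ∈ Set.Ico (1 + u) (1 + v), c ≤ g x) :
    c * (v - u) ≤ N P I (Set.Ici 1) u v := by
  by_cases hc : c ≤ 0
  · have : c * (v - u) ≤ 0 := mul_nonpos_of_nonpos_of_nonneg hc (by linarith)
    exact this.trans (N_nonneg _ _ _)
  · have hc' : 0 ≤ c := (not_le.1 hc).le
    have hfin : P.map (S I) (Set.Ico (1 + u) (1 + v)) ≠ ∞ := by
      have : IsProbabilityMeasure (P.map (S I)) :=
        Measure.isProbabilityMeasure_map (measurable_S h).aemeasurable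
      exact measure_ne_top _ _
    rw [N_eq_map h]
    unfold Measure.real
    have h1 : ENNReal.ofReal (c * (v - u)) ≤ P.map (S I) (Set.Ico (1 + u) (1 + v)) := by
      rw [hg, withDensity_apply _ measurableSet_Ico]
      have h1 : ∫⁻ x in Set.Ico (1 + u) (1 + v), ENNReal.ofReal c ≤
          ∫⁻ x in Set.Ico (1 + u) (1 + v), ENNReal.ofReal (g x) :=
        setLIntegral_mono' measurableSet_Ico fun x hx => ENNReal.ofReal_le_ofReal (hb x hx)
      rw [setLIntegral_const, Real.volume_Ico, ← ENNReal.ofReal_mul hc'] at h1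
      have e : 1 + v - (1 + u) = v - u := by ring
      rw [e] at h1
      exact h1
    exact (ENNReal.ofReal_le_iff_le_toReal hfin).1 h1

theorem Van_start (h : Records P I)
    (hg : P.map (S I) = volume.withDensity (fun x => ENNReal.ofReal (g x)))
    (hg0 : ∀ x, 0 ≤ g x) (R : ℝ) (hc : ∀ x, 1 < x → x < 1 + R → ContinuousAt g x)
    (G : AddSubgroup ℝ) : Van P I (Set.Ici 1) G R := by
  intro x hxG hxR
  rcases lt_trichotomy x 0 with hx | hx | hx
  · exact D_neg _ x hx
  · exact absurd (hx ▸ G.zero_mem) hxG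
  · have hcx := hc (1 + x) (by linarith) (by linarith)
    rw [Metric.tendsto_nhds]
    intro e he
    have hη : 0 < e / 4 := by positivity
    obtain ⟨r, hr, hr2⟩ := Metric.continuousAt_iff.1 hcx (e / 4) hη
    have hev : ∀ᶠ ε in 𝓝[>] (0:ℝ), ε < r := by
      have : Set.Iio r ∈ 𝓝 (0:ℝ) := Iio_mem_nhds hr
      exact mem_nhdsWithin_of_mem_nhds this
    have hpos : ∀ᶠ ε in 𝓝[>] (0:ℝ), 0 < ε := eventually_mem_nhdsWithin
    filter_upwards [hev, hpos] with ε hε1 hε0
    have hclose : ∀ y, |y - (1 + x)| < r → g (1+x) - e/4 ≤ g y ∧ g y ≤ g (1+x) + e/4 := by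
      intro y hy
      have := hr2 (by rw [Real.dist_eq]; exact hy : dist y (1 + x) < r)
      rw [Real.dist_eq, abs_lt] at this
      constructor <;> linarith [this.1, this.2]
    have hg1 := hg0 (1 + x)
    have u1 := dens_upper h hg (u := x) (v := x + ε) (K := g (1+x) + e/4) (by linarith)
      (by linarith) (fun y hy => (hclose y (by
        rw [abs_lt]; constructor <;> linarith [hy.1, hy.2])).2)
    have u2 := dens_upper h hg (u := x - ε) (v := x) (K := g (1+x) + e/4) (by linarith)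
      (by linarith) (fun y hy => (hclose y (by
        rw [abs_lt]; constructor <;> linarith [hy.1, hy.2])).2)
    have l1 := dens_lower h hg (u := x) (v := x + ε) (c := g (1+x) - e/4) (by linarith)
      (fun y hy => (hclose y (by
        rw [abs_lt]; constructor <;> linarith [hy.1, hy.2])).1)
    have l2 := dens_lower h hg (u := x - ε) (v := x) (c := g (1+x) - e/4) (by linarith)
      (fun y hy => (hclose y (by
        rw [abs_lt]; constructor <;> linarith [hy.1, hy.2])).1)
    rw [Real.dist_eq, sub_zero]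
    unfold D
    rw [abs_div, abs_of_pos hε0, div_lt_iff₀ hε0, abs_lt]
    have e1 : x + ε - x = ε := by ring
    have e2 : x - (x - ε) = ε := by ring
    rw [e1] at u1 l1
    rw [e2] at u2 l2
    constructor <;> nlinarith

end density

theorem no_cont (h : Records P I) {f : ℝ → ℝ}
    (hf : P.map (S I) = volume.withDensity (fun x => ENNReal.ofReal (f x)))
    (R : ℝ) (hR0 : 0 < R) (hR1 : R ≤ 1) (hc : ∀ x, 1 < x → x < 1 + R → ContinuousAt f x) :
    False := by
  -- replace `f` by its positive part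
  set g : ℝ → ℝ := fun x => max (f x) 0 with hgdef
  have hg0 : ∀ x, 0 ≤ g x := fun x => le_max_right _ _
  have hg : P.map (S I) = volume.withDensity (fun x => ENNReal.ofReal (g x)) := by
    rw [hf]
    congr 1
    funext x
    rw [hgdef]
    simp only [ENNReal.ofReal_max, ENNReal.ofReal_zero]
    exact (max_eq_left (zero_le)).symm
  have hcg : ∀ x, 1 < x → x < 1 + R → ContinuousAt g x := fun x h1 h2 =>
    (hc x h1 h2).max continuousAt_const
  set δ : ℝ := R / 24 with hδdef
  have hδ : 0 < δ := by positivity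
  -- bound on a compact subinterval
  obtain ⟨M, hM0, hM⟩ : ∃ M : ℝ, 0 ≤ M ∧ ∀ x ∈ Set.Icc (1 + δ) (1 + 3 * R / 4), g x ≤ M := by
    have hcomp : IsCompact (Set.Icc (1 + δ) (1 + 3 * R / 4)) := isCompact_Icc
    have hcont : ContinuousOn g (Set.Icc (1 + δ) (1 + 3 * R / 4)) := by
      intro x hx
      refine (hcg x ?_ ?_).continuousWithinAt
      · linarith [hx.1]
      · linarith [hx.2]
    obtain ⟨M, hM⟩ := hcomp.bddAbove_image hcont
    refine ⟨max M 0, le_max_right _ _, fun x hx => ?_⟩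
    exact (hM ⟨x, hx, rfl⟩).trans (le_max_left _ _)
  -- choose a large prime
  obtain ⟨p, hpB, hp⟩ := Nat.exists_infinite_primes
    (⌈max (max 5 (8 / R)) (max (4 / δ ^ 3) (768 * M / R ^ 2))⌉₊ + 1)
  have hpB' : max (max 5 (8 / R)) (max (4 / δ ^ 3) (768 * M / R ^ 2)) < (p:ℝ) := by
    have h1 := Nat.le_ceil (max (max 5 (8 / R)) (max (4 / δ ^ 3) (768 * M / R ^ 2)))
    have h2 : ((⌈max (max 5 (8 / R)) (max (4 / δ ^ 3) (768 * M / R ^ 2))⌉₊ + 1 : ℕ) : ℝ) ≤ p := by
      exact_mod_cast hpB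
    push_cast at h2
    linarith
  have hp5 : (5:ℝ) < p := lt_of_le_of_lt ((le_max_left _ _).trans (le_max_left _ _)) hpB'
  have hpR : 8 / R < p := lt_of_le_of_lt ((le_max_right _ _).trans (le_max_left _ _)) hpB'
  have hpδ : 4 / δ ^ 3 < p := lt_of_le_of_lt ((le_max_left _ _).trans (le_max_right _ _)) hpB'
  have hpM : 768 * M / R ^ 2 < p := lt_of_le_of_lt ((le_max_right _ _).trans (le_max_right _ _)) hpB'
  have hp0 : (0:ℝ) < p := by linarith
  set b : ℕ := ⌊R * p / 4⌋₊ with hb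
  have hb1 : (b:ℝ) ≤ R * p / 4 := Nat.floor_le (by positivity)
  have hb2 : R * p / 4 < b + 1 := Nat.lt_floor_add_one _
  have hRp : 8 < R * p := by rw [div_lt_iff₀ hR0] at hpR; linarith
  have hb3 : R * p / 8 ≤ b := by linarith
  set m : ℕ := 2 * p - 1 with hm
  have hp1 := hp.one_le
  have hmR : (m:ℝ) = 2 * p - 1 := by
    rw [hm, Nat.cast_sub (by omega)]; push_cast; ring
  have hm1 : 1 ≤ m := by omega
  have hm0 : (0:ℝ) < m := by exact_mod_cast (by omega : 0 < m)
  -- the point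
  set x : ℝ := ((2 * b : ℕ) : ℝ) / p with hx
  have hx2 : x = 2 * b / p := by rw [hx]; push_cast; ring
  have hxR2 : x ≤ R / 2 := by
    rw [hx2, div_le_iff₀ hp0]; linarith
  have hap : 2 * b < p := by
    have : (2 * b : ℝ) < p := by nlinarith
    exact_mod_cast this
  have hstep : δ + ((3 * b : ℕ) : ℝ) / m ≤ x := by
    have h1 : x - ((3 * b : ℕ) : ℝ) / m = b * (p - 2) / (p * (2 * p - 1)) := by
      rw [hx2, hmR]
      push_cast
      have : (2:ℝ) * p - 1 ≠ 0 := by rw [← hmR]; exact hm0.ne'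
      field_simp
      ring
    have h2 : R / 24 ≤ b * (p - 2) / (p * (2 * p - 1)) := by
      rw [le_div_iff₀ (by nlinarith)]
      have h3 : R * p / 8 * (p - 2) ≤ b * (p - 2) := mul_le_mul_of_nonneg_right hb3 (by linarith)
      have h4 : R / 24 * (p * (2 * p - 1)) ≤ R * p / 8 * (p - 2) := by
        have e : R * p / 8 * (p - 2) - R / 24 * (p * (2 * p - 1)) = R * p / 24 * (p - 5) := by ring
        have : 0 ≤ R * p / 24 * (p - 5) := by
          apply mul_nonneg (by positivity); linarith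
        linarith
      exact h4.trans h3
    linarith
  -- upper bound
  have hbound : ∀ u v, δ ≤ u → u ≤ v → v ≤ 3 * R / 4 →
      N P I (Set.Ici m) u v ≤ (m * M) * (v - u) := by
    intro u v hu huv hv
    refine (N_Ici_le h m hm1 u v).trans ?_
    rw [mul_assoc]
    refine mul_le_mul_of_nonneg_left ?_ hm0.le
    refine dens_upper h hg huv hM0 fun y hy => hM y ⟨?_, ?_⟩
    · linarith [hy.1]
    · linarith [hy.2]
  have hup := iterate_bound h m hm1 δ (3 * R / 4) (m * M) hδ (by positivity) hbound (3 * b)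
  -- jump transport
  have hV := Van_start h hg hg0 R hcg (GG m (p-1))
  have hjump := jump_transport h p m hp (by omega) (by omega) R hV (2 * b) hap (by
    show x < R
    linarith)
  set q : ℝ := (-1 / ((p:ℝ) - 1)) ^ (2 * b) with hq
  have hqval : q = 1 / ((p:ℝ) - 1) ^ (2 * b) := by
    rw [hq, pow_mul, div_pow, neg_one_sq, div_pow, one_pow, ← pow_mul]
  have hp1' : (0:ℝ) < (p:ℝ) - 1 := by linarith
  have hq0 : 0 < q := by rw [hqval]; positivity
  have hkey : q / 6 ≤ m * M / (m * δ) ^ (3 * b) := by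
    refine le_of_forall_pos_le_add fun e he => ?_
    have h1 : ∀ᶠ ε in 𝓝[>] (0:ℝ), dist (D P I (Set.Ici m) x ε - q * D P I (Set.Ici m) 0 ε) 0 < e :=
      (Metric.tendsto_nhds.1 hjump) e he
    have hpos : ∀ᶠ ε in 𝓝[>] (0:ℝ), 0 < ε := eventually_mem_nhdsWithin
    have hs1 : ∀ᶠ ε in 𝓝[>] (0:ℝ), ε < 1 / (m:ℝ) :=
      mem_nhdsWithin_of_mem_nhds (Iio_mem_nhds (by positivity))
    have hs2 : ∀ᶠ ε in 𝓝[>] (0:ℝ), ε < R / 4 :=
      mem_nhdsWithin_of_mem_nhds (Iio_mem_nhds (by positivity))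
    obtain ⟨ε, ⟨⟨h1, h2⟩, h3⟩, h4⟩ := (((h1.and hpos).and hs1).and hs2).exists
    have hlow := N_lower h m hm1 ε h2 h3.le
    have hD0 : 1 / 6 ≤ D P I (Set.Ici m) 0 ε := by
      unfold D
      rw [N_neg (Set.Ici m) (0 - ε) 0 le_rfl, sub_zero, zero_add, le_div_iff₀ h2]
      linarith
    have hDx : D P I (Set.Ici m) x ε ≤ m * M / (m * δ) ^ (3 * b) := by
      unfold D
      rw [div_le_iff₀ h2]
      have h5 := hup x (x + ε) hstep (by linarith) (by linarith)
      have h6 := N_nonneg (P := P) (I := I) (Set.Ici m) (x - ε) x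
      have e1 : m * M * (x + ε - x) / (m * δ) ^ (3 * b) = m * M / (m * δ) ^ (3 * b) * ε := by ring
      rw [e1] at h5
      linarith
    rw [Real.dist_eq, sub_zero, abs_lt] at h1
    have h7 : q * (1/6) ≤ q * D P I (Set.Ici m) 0 ε := mul_le_mul_of_nonneg_left hD0 hq0.le
    linarith [h1.1]
  -- arithmetic contradiction
  have hmδ : (0:ℝ) < (m * δ) ^ (3 * b) := by positivity
  rw [hqval, div_div, div_le_div_iff₀ (by positivity) hmδ, one_mul] at hkey
  have hcube : 4 * (p:ℝ) ^ 2 ≤ (m * δ) ^ 3 := by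
    have h1 : (p:ℝ) ≤ m := by rw [hmR]; linarith
    have h2 : (p * δ) ^ 3 ≤ (m * δ) ^ 3 := by
      gcongr
    have h3 : 4 * (p:ℝ) ^ 2 ≤ (p * δ) ^ 3 := by
      rw [div_lt_iff₀ (by positivity)] at hpδ
      have : (p * δ) ^ 3 = (p * δ ^ 3) * p ^ 2 := by ring
      rw [this]
      exact mul_le_mul_of_nonneg_right hpδ.le (by positivity)
    linarith
  have h8 : (4:ℝ) ^ b * ((p:ℝ) - 1) ^ (2 * b) ≤ (m * δ) ^ (3 * b) := by
    calc (4:ℝ) ^ b * ((p:ℝ) - 1) ^ (2 * b) = (4 * ((p:ℝ) - 1) ^ 2) ^ b := by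
          rw [mul_pow, ← pow_mul]
      _ ≤ (4 * (p:ℝ) ^ 2) ^ b := by
          gcongr
          linarith
      _ ≤ ((m * δ) ^ 3) ^ b := by gcongr
      _ = (m * δ) ^ (3 * b) := by rw [← pow_mul]
  have h9 : (4:ℝ) ^ b ≤ m * M * 6 := by
    have h10 := h8.trans hkey
    have h11 : m * M * (((p:ℝ) - 1) ^ (2 * b) * 6) = (m * M * 6) * ((p:ℝ) - 1) ^ (2 * b) := by ring
    rw [h11] at h10
    exact le_of_mul_le_mul_right h10 (by positivity)
  have h2b : (b:ℝ) ≤ 2 ^ b := by
    have := (Nat.lt_two_pow_self (n := b)).le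
    exact_mod_cast this
  have h12 : (4:ℝ) ^ b = 2 ^ b * 2 ^ b := by rw [← mul_pow]; norm_num
  have h13 : (R * p / 8) * (R * p / 8) ≤ 12 * p * M := by
    have h14 : (R * p / 8) * (R * p / 8) ≤ (2:ℝ) ^ b * 2 ^ b :=
      mul_le_mul (hb3.trans h2b) (hb3.trans h2b) (by positivity) (by positivity)
    have h15 : (m:ℝ) * M * 6 ≤ 12 * p * M := by
      have : (m:ℝ) * M ≤ (2 * p) * M := mul_le_mul_of_nonneg_right (by rw [hmR]; linarith) hM0
      linarith
    linarith
  have h16 : R ^ 2 * p ≤ 768 * M := by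
    have h17 : (R ^ 2 * p) * p ≤ (768 * M) * p := by nlinarith
    exact le_of_mul_le_mul_right h17 hp0
  rw [div_lt_iff₀ (by positivity)] at hpM
  linarith

end H143RH
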