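import Pool.Agent.H143RH.Dist

/-! Jumps of the densities and the `p`-adic argument. -/

open MeasureTheory ProbabilityTheory Filter Topology
open scoped ENNReal

namespace H143RH

variable {Ω : Type*} [mΩ : MeasurableSpace Ω] {P : Measure Ω} [IsProbabilityMeasure P]
  {I : ℕ → Ω → ℝ}

/-- difference of the mean densities to the right and to the left of `x` -/
noncomputable def D (P : Measure Ω) (I : ℕ → Ω → ℝ) (A : Set ℕ) (x ε : ℝ) : ℝ :=
  (N P I A x (x + ε) - N P I A (x - ε) x) / ε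

theorem D_rec (h : Records P I) {A : Set ℕ} {k : ℕ} (hk : k ∉ A) (x ε : ℝ) :
    D P I (insert k A) x ε = (1 - 1 / ((k:ℝ) + 1)) * D P I A x ε +
      1 / ((k:ℝ) + 1) * D P I A (x - 1 / ((k:ℝ) + 1)) ε := by
  unfold D
  rw [N_rec h hk, N_rec h hk]
  have e1 : x - 1 / ((k:ℝ) + 1) + ε = x + ε - 1 / ((k:ℝ) + 1) := by ring
  have e2 : x - 1 / ((k:ℝ) + 1) - ε = x - ε - 1 / ((k:ℝ) + 1) := by ring
  rw [e1, e2]
  ring

theorem D_neg (A : Set ℕ) (x : ℝ) (hx : x < 0) :
    Tendsto (fun ε => D P I A x ε) (𝓝[>] 0) (𝓝 0) := by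
  refine tendsto_const_nhds.congr' ?_
  have hev : ∀ᶠ ε in 𝓝[>] (0:ℝ), ε < -x := by
    have : Set.Iio (-x) ∈ 𝓝 (0:ℝ) := Iio_mem_nhds (by linarith)
    exact mem_nhdsWithin_of_mem_nhds this
  filter_upwards [hev] with ε hε
  unfold D
  rw [N_neg A x (x+ε) (by linarith), N_neg A (x-ε) x hx.le]
  simp

/-- the jump vanishes outside `G`, below `R` -/
def Van (P : Measure Ω) (I : ℕ → Ω → ℝ) (A : Set ℕ) (G : AddSubgroup ℝ) (R : ℝ) : Prop :=
  ∀ x, x ∉ G → x < R → Tendsto (fun ε => D P I A x ε) (𝓝[>] 0) (𝓝 0)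

theorem Van_remove (h : Records P I) {A : Set ℕ} {k : ℕ} (hk : k ∉ A) (hk1 : 1 ≤ k)
    (G : AddSubgroup ℝ) (hG : 1 / ((k:ℝ) + 1) ∈ G) (R : ℝ) (hV : Van P I (insert k A) G R) :
    Van P I A G R := by
  have hk0 : (0:ℝ) < k := by exact_mod_cast (by omega : 0 < k)
  have key : ∀ j : ℕ, ∀ x, x ∉ G → x < R → x < j / ((k:ℝ) + 1) →
      Tendsto (fun ε => D P I A x ε) (𝓝[>] 0) (𝓝 0) := by
    intro j
    induction j with
    | zero => 
      intro x _ _ hx
      simp only [Nat.cast_zero, zero_div] at hx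
      exact D_neg A x hx
    | succ j ih =>
      intro x hxG hxR hx
      have h1 := hV x hxG hxR
      have h2 := ih (x - 1 / ((k:ℝ) + 1)) (fun hc => hxG (by
        have := G.add_mem hc hG
        simpa using this)) (by
          have : (0:ℝ) < 1 / ((k:ℝ) + 1) := by positivity
          linarith) (by
          push_cast at hx
          have : ((j:ℝ) + 1) / ((k:ℝ) + 1) = j / ((k:ℝ) + 1) + 1 / ((k:ℝ) + 1) := by ring
          linarith)
      have h3 := (h1.sub (h2.const_mul (1 / ((k:ℝ) + 1)))).const_mul (((k:ℝ) + 1) / k)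
      simp only [mul_zero, sub_zero] at h3
      refine h3.congr fun ε => ?_
      rw [D_rec h hk, one_sub_inv]
      field_simp
      ring
  intro x hxG hxR
  obtain ⟨j, hj⟩ := exists_nat_gt (x * ((k:ℝ) + 1))
  exact key j x hxG hxR (by rw [lt_div_iff₀ (by positivity)]; exact hj)

/-- remove all the indices `1, ..., m-1` except `q` -/
theorem Van_all (h : Records P I) (q : ℕ) (hq : 1 ≤ q) (G : AddSubgroup ℝ) (R : ℝ) (m : ℕ)
    (hG : ∀ k, 1 ≤ k → k < m → k ≠ q → 1 / ((k:ℝ) + 1) ∈ G)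
    (h1 : Van P I (Set.Ici 1) G R) (hqm : q < m) : Van P I (insert q (Set.Ici m)) G R := by
  have key : ∀ j, 1 ≤ j → j ≤ m → Van P I (insert q (Set.Ici j)) G R := by
    intro j hj
    induction j, hj using Nat.le_induction with
    | base => 
      intro _
      rw [Set.insert_eq_of_mem (by exact hq)]
      exact h1
    | succ j hj ih =>
      intro hjm
      have hV := ih (by omega)
      by_cases hjq : j = q
      · subst hjq
        rw [← Ici_eq_insert]
        rw [Set.insert_eq_of_mem (by simp)] at hV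
        exact hV
      · have hnot : j ∉ insert q (Set.Ici (j+1)) := by
          simp [hjq]
        have e : insert j (insert q (Set.Ici (j+1))) = insert q (Set.Ici j) := by
          rw [Set.insert_comm, ← Ici_eq_insert]
        refine Van_remove h hnot hj G (hG j hj (by omega) hjq) R ?_
        rw [e]; exact hV
  exact key m (by omega) le_rfl

/-- the group `(1/L) ℤ`, `L` the product of the `k+1`, `k < m`, `k ≠ q` -/
noncomputable def LL (m q : ℕ) : ℕ := ∏ k ∈ (Finset.range m).erase q, (k + 1)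

noncomputable def GG (m q : ℕ) : AddSubgroup ℝ := AddSubgroup.zmultiples (1 / (LL m q : ℝ))

theorem LL_pos (m q : ℕ) : 0 < LL m q := Finset.prod_pos fun k _ => Nat.succ_pos k

theorem mem_GG (m q k : ℕ) (hk : k < m) (hkq : k ≠ q) : 1 / ((k:ℝ) + 1) ∈ GG m q := by
  have hd : (k + 1) ∣ LL m q := by
    unfold LL
    exact Finset.dvd_prod_of_mem (fun k => k + 1) (by simp [hk, hkq])
  obtain ⟨c, hc⟩ := hd
  unfold GG
  rw [AddSubgroup.mem_zmultiples_iff]
  refine ⟨(c : ℤ), ?_⟩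
  have hL : (LL m q : ℝ) = ((k:ℝ) + 1) * c := by rw [hc]; push_cast; ring
  have hLp : (0:ℝ) < LL m q := by exact_mod_cast LL_pos m q
  have hc0 : (c:ℝ) ≠ 0 := by
    intro h0
    rw [h0, mul_zero] at hL
    linarith
  rw [hL, zsmul_eq_mul]
  push_cast
  field_simp

theorem notMem_GG (p m a : ℕ) (hp : p.Prime) (hm : m < 2 * p) (ha : ¬ p ∣ a) :
    (a:ℝ) / p ∉ GG m (p - 1) := by
  unfold GG
  rw [AddSubgroup.mem_zmultiples_iff]
  rintro ⟨z, hz⟩
  have hLp : (0:ℝ) < LL m (p-1) := by exact_mod_cast LL_pos m (p-1)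
  have hp0 : (0:ℝ) < p := by exact_mod_cast hp.pos
  rw [zsmul_eq_mul, mul_one_div, div_eq_div_iff hLp.ne' hp0.ne'] at hz
  have hz2 : z * (p:ℤ) = (a:ℤ) * (LL m (p-1) : ℤ) := by exact_mod_cast hz
  have hdvd : (p:ℤ) ∣ (a:ℤ) * (LL m (p-1) : ℤ) := ⟨z, by rw [← hz2]; ring⟩
  have hdvd' : p ∣ a * LL m (p-1) := by exact_mod_cast hdvd
  rcases (Nat.Prime.dvd_mul hp).1 hdvd' with h | h
  · exact ha h
  · unfold LL at h
    rw [Prime.dvd_finsetProd_iff hp.prime] at h
    obtain ⟨k, hk, hpk⟩ := h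
    rw [Finset.mem_erase, Finset.mem_range] at hk
    obtain ⟨c, hc⟩ := hpk
    have hc0 : c ≠ 0 := by rintro rfl; omega
    have hc1 : c ≠ 1 := by rintro rfl; have := hp.pos; omega
    have hc2 : 2 ≤ c := by omega
    have : p * 2 ≤ p * c := Nat.mul_le_mul_left p hc2
    omega

/-- transport of the jump at `0` to the points `a/p` -/
theorem jump_transport (h : Records P I) (p m : ℕ) (hp : p.Prime) (hpm : p ≤ m) (hm : m < 2 * p)
    (R : ℝ) (h1 : Van P I (Set.Ici 1) (GG m (p-1)) R) (a : ℕ) (hap : a < p) (haR : (a:ℝ) / p < R) :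
    Tendsto (fun ε => D P I (Set.Ici m) ((a:ℝ) / p) ε -
      (-1 / ((p:ℝ) - 1)) ^ a * D P I (Set.Ici m) 0 ε) (𝓝[>] 0) (𝓝 0) := by
  have hp2 := hp.two_le
  have hp0 : (0:ℝ) < p := by exact_mod_cast hp.pos
  have hp1 : (0:ℝ) < (p:ℝ) - 1 := by
    have : (2:ℝ) ≤ p := by exact_mod_cast hp2
    linarith
  have hcast : (((p - 1 : ℕ) : ℝ) + 1) = p := by
    rw [Nat.cast_sub hp.one_le]; ring
  have hV := Van_all h (p-1) (by omega) (GG m (p-1)) R m
    (fun k _ hk2 hk3 => mem_GG m (p-1) k hk2 hk3) h1 (by omega)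
  have hnot : p - 1 ∉ Set.Ici m := by simp; omega
  induction a with
  | zero => simp
  | succ a ih =>
    have haR' : (a:ℝ) / p < R := by
      refine lt_of_le_of_lt ?_ haR
      rw [div_le_div_iff_of_pos_right hp0]
      push_cast; linarith
    have ih' := ih (by omega) haR'
    have hnd : ¬ p ∣ (a + 1) := fun hd => by
      have := Nat.le_of_dvd (by omega) hd
      omega
    have hv := hV (((a + 1 : ℕ) : ℝ) / p) (notMem_GG p m (a+1) hp hm hnd) haR
    have e : ∀ ε, D P I (insert (p-1) (Set.Ici m)) (((a + 1 : ℕ) : ℝ) / p) ε =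
        (1 - 1 / (p:ℝ)) * D P I (Set.Ici m) (((a + 1 : ℕ) : ℝ) / p) ε +
        1 / (p:ℝ) * D P I (Set.Ici m) ((a:ℝ) / p) ε := by
      intro ε
      rw [D_rec h hnot, hcast]
      have : ((a + 1 : ℕ) : ℝ) / p - 1 / (p:ℝ) = (a:ℝ) / p := by push_cast; ring
      rw [this]
    simp_rw [e] at hv
    have h3 := (hv.const_mul ((p:ℝ) / ((p:ℝ) - 1))).sub (ih'.const_mul (1 / ((p:ℝ) - 1)))
    simp only [mul_zero, sub_zero] at h3
    refine h3.congr fun ε => ?_
    rw [pow_succ]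
    field_simp
    ring

end H143RH
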